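import Pool.Agent.U108.PV.H

set_option autoImplicit false

/-! All initial segments simultaneously. -/

namespace Pool.Agent.U108.PV
open Finset
open Pool.Agent.TH872.GQ (S)
open Pool.Agent.H373R2.T7 (lamz Vz pz mem_pz Vz_inv_small Vz_pos nuB nuB_le)
open Pool.Agent.R460.SQ (thp)
open Pool.Agent.TH204.WR (rho)
open Polynomial (X)
open scoped Polynomial

/-- the sum of the logarithms of the primes `|F(n) + c|`, for the `n < y` with restricted digits -/
noncomputable def TH (b k : ℕ) (D : ℕ → Finset ℕ) (F : ℤ[X]) (c : ℤ) (y : ℕ) : ℝ :=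
  ∑ n ∈ (S b D k).filter (fun n => n < y), thp (F.eval (n : ℤ) + c).natAbs

open Classical in
/-- the number of the `n < y` with restricted digits for which `F(n) + c` has no prime factor `≤ b` -/
noncomputable def BA (b k : ℕ) (D : ℕ → Finset ℕ) (F : ℤ[X]) (c : ℤ) (y : ℕ) : ℕ :=
  ((S b D k).filter (fun n : ℕ => n < y ∧ ∀ p ∈ pz b, ¬ (p : ℤ) ∣ F.eval (n : ℤ) + c)).card

lemma card_pow (b : ℕ) (t : ℕ) (hb : 1 ≤ b) (D : ℕ → Finset ℕ) (hD : ∀ i < t, D i ⊆ range b ∧ 2 ≤ (D i).card) : 2 ^ t ≤ (S b D t).card := by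
  induction t with
  | zero => rw [S_zero]; simp
  | succ t ih =>
    have h8 := ih (fun i hi => hD i (by omega))
    rw [card_split b t 1 hb D, S_one b (fun i => D (t + i)) (hD t (by omega)).1, pow_succ, mul_comm]
    have := (hD t (by omega)).2
    exact Nat.mul_le_mul (by simpa using this) h8

/-- the elements with given upper digits -/
lemma card_block (b j t : ℕ) (hb : 1 ≤ b) (D : ℕ → Finset ℕ) (hD : ∀ i < j + t, D i ⊆ range b ∧ 2 ≤ (D i).card) (h : ℕ) :
    (((S b D (j + t)).filter (fun n => n / b ^ j = h)).card : ℝ) ≤ (S b D (j + t)).card / 2 ^ t := by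
  classical
  have hbj : 0 < b ^ j := by positivity
  have h1 : ((S b D (j + t)).filter (fun n => n / b ^ j = h)).card ≤ (S b D j).card := by
    apply card_le_card_of_injOn (fun n => n % b ^ j)
    · intro n hn
      rw [mem_coe, mem_filter, mem_S] at hn
      obtain ⟨⟨h2, h3⟩, h4⟩ := hn
      rw [mem_coe, mem_S]
      refine ⟨Nat.mod_lt _ hbj, fun i hi => ?_⟩
      have h5 := h3 i (by omega)
      have h6 : n % b ^ j / b ^ i % b = n / b ^ i % b := by
        obtain ⟨d, rfl⟩ : ∃ d, j = i + (d + 1) := ⟨j - i - 1, by omega⟩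
        conv_rhs => rw [← Nat.mod_add_div n (b ^ (i + (d + 1)))]
        have h6 : (n % b ^ (i + (d + 1)) + b ^ (i + (d + 1)) * (n / b ^ (i + (d + 1)))) / b ^ i =
            n % b ^ (i + (d + 1)) / b ^ i + b * (b ^ d * (n / b ^ (i + (d + 1)))) := by
          rw [show b ^ (i + (d + 1)) * (n / b ^ (i + (d + 1))) = b ^ i * (b * (b ^ d * (n / b ^ (i + (d + 1))))) by
            rw [pow_add b i (d + 1), pow_succ]; ring, Nat.add_mul_div_left _ _ (by positivity)]
        rw [h6, Nat.add_mul_mod_self_left]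
      rw [h6]
      exact h5
    · intro n hn n' hn' he
      rw [mem_coe, mem_filter] at hn hn'
      simp only at he
      rw [← Nat.mod_add_div n (b ^ j), ← Nat.mod_add_div n' (b ^ j), he, hn.2, hn'.2]
  have h2 := card_split b j t hb D
  have h3 := card_pow b t hb (fun i => D (j + i)) (fun i hi => hD (j + i) (by omega))
  rw [le_div_iff₀ (by positivity), h2]
  push_cast
  have h4 : (((S b D (j + t)).filter (fun n => n / b ^ j = h)).card : ℝ) ≤ (S b D j).card := by exact_mod_cast h1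
  have h5 : (2 : ℝ) ^ t ≤ (S b (fun i => D (j + i)) t).card := by exact_mod_cast h3
  calc (((S b D (j + t)).filter (fun n => n / b ^ j = h)).card : ℝ) * 2 ^ t ≤ (S b D j).card * (S b (fun i => D (j + i)) t).card :=
        mul_le_mul h4 h5 (by positivity) (Nat.cast_nonneg _)
    _ = _ := mul_comm _ _

open Classical in
theorem core_y (b r B U : ℕ) (hb : 2 ≤ b) (F : ℤ[X]) (hF : F.natDegree = r + 2) : ∃ E0 : ℕ, ∀ E : ℕ, ∃ k₀ : ℕ, ∀ k : ℕ, k₀ ≤ k →
    ∀ D : ℕ → Finset ℕ, (∀ i < k, D i ⊆ range b ∧ 2 ≤ (D i).card) → ∀ z : ℕ, k ^ E0 ≤ z → z ≤ k ^ E →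
    (((Icc (-((B * b ^ ((r + 2) * k) : ℕ) : ℤ)) ((B * b ^ ((r + 2) * k) : ℕ) : ℤ)).filter (fun c : ℤ =>
      ∃ y : ℕ, (S b D k).card / (k : ℝ) ^ U < |TH b k D F c y - (Vz z)⁻¹ * (BA b k D F c y * prodz b z F c)|)).card : ℝ) ≤
      ((b ^ ((r + 2) * k) : ℕ) : ℝ) / (k : ℝ) ^ U := by
  obtain ⟨U1, hU1⟩ : ∃ U1, U1 = U + 1 + b * (U + 7) + 1 := ⟨_, rfl⟩
  obtain ⟨E0, hc⟩ := core b r B U1 hb F hF
  obtain ⟨BF, hBF⟩ := Pool.Agent.U108.DP.eval_le (mv F) (r + 2) (by rw [← hF]; exact mv_degree F)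
  obtain ⟨h, k₁, hh, hen⟩ := one_energy b r 1 hb
  refine ⟨E0 + 1, fun E => ?_⟩
  obtain ⟨k₂, h2⟩ := hc E
  obtain ⟨N1, h3⟩ := Vz_inv_small E
  obtain ⟨K0, hK0⟩ : ∃ K0 : ℕ, ∀ k : ℕ, K0 ≤ k → k ^ (U + 7) ≤ 2 ^ (k / 2) := by
    obtain ⟨u₀, hu⟩ := poly_exp (1 / 2) (by norm_num) (by norm_num) (4 ^ (U + 7)) (U + 7)
    refine ⟨8 * u₀ + 8, fun k hk => ?_⟩
    have h4 := hu (k / 4) (by omega)
    have h5 : (k : ℝ) ≤ 4 * ((k / 4 : ℕ) + 1) := by
      have : k ≤ 4 * (k / 4 + 1) := by omega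
      exact_mod_cast this
    have h6 : (k : ℝ) ^ (U + 7) ≤ 4 ^ (U + 7) * (((k / 4 : ℕ) : ℝ) + 1) ^ (U + 7) := by
      rw [← mul_pow]
      exact pow_le_pow_left₀ (Nat.cast_nonneg _) h5 _
    have h7 : (k : ℝ) ^ (U + 7) ≤ 2 ^ (2 * (k / 4)) := by
      rw [one_div, inv_pow, ← div_eq_mul_inv, div_le_one (by positivity)] at h4
      exact h6.trans h4
    have h8 : k ^ (U + 7) ≤ 2 ^ (2 * (k / 4)) := by exact_mod_cast h7
    exact h8.trans (Nat.pow_le_pow_right (by norm_num) (by omega))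
  refine ⟨k₁ + k₂ + N1 + K0 + B + BF + b + 100, fun k hk D hD z hz1 hz2 => ?_⟩
  obtain ⟨⟨hl1, hl2, hkN⟩, -⟩ := hen k (by omega)
  obtain ⟨N, hN⟩ : ∃ N, N = b ^ ((r + 2) * k) := ⟨_, rfl⟩
  rw [← hN] at hl1 hl2 hkN ⊢
  have hk100 : (100 : ℝ) ≤ k := by exact_mod_cast (by omega : 100 ≤ k)
  have hk0 : (0 : ℝ) < k := by linarith
  have hk1 : (1 : ℝ) ≤ k := by linarith
  have hN0' : 0 < N := by rw [hN]; positivity
  have hNr : (0 : ℝ) < N := by exact_mod_cast hN0'
  -- the number of the upper digits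
  obtain ⟨m, hm⟩ : ∃ m, m = Nat.clog 2 (8 * k ^ (U + 4)) := ⟨_, rfl⟩
  have hm1 : 8 * k ^ (U + 4) ≤ 2 ^ m := by rw [hm]; exact Nat.le_pow_clog (by norm_num) _
  have hm2 : 2 ^ m ≤ 16 * k ^ (U + 4) := by
    have h4 : 1 < 8 * k ^ (U + 4) := by
      have : 1 ≤ k ^ (U + 4) := Nat.one_le_pow _ _ (by omega)
      omega
    have h5 : m ≠ 0 := by
      rw [hm]
      exact (Nat.clog_pos (by norm_num) h4).ne'
    obtain ⟨m', rfl⟩ : ∃ m', m = m' + 1 := ⟨m - 1, by omega⟩
    have h6 : 2 ^ m' < 8 * k ^ (U + 4) := by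
      by_contra hcon
      push Not at hcon
      have h7 := Nat.clog_le_of_le_pow hcon
      omega
    rw [pow_succ]
    omega
  have hm3 : 2 ^ m ≤ k ^ (U + 6) := by
    refine hm2.trans ?_
    rw [show U + 6 = U + 4 + 2 by ring, pow_add k (U + 4) 2, mul_comm]
    apply Nat.mul_le_mul_left
    nlinarith
  have hmk : m ≤ k / 2 := by
    have h4 := hK0 k (by omega)
    have h5 : 2 ^ m ≤ 2 ^ (k / 2) := (hm3.trans (Nat.pow_le_pow_right (by omega) (by omega))).trans h4
    exact (Nat.pow_le_pow_iff_right (by norm_num)).1 h5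
  obtain ⟨j, hj⟩ : ∃ j, j = k - m := ⟨_, rfl⟩
  have hjk : j + m = k := by omega
  have hbm : b ^ m ≤ k ^ (b * (U + 6)) := by
    calc b ^ m ≤ (2 ^ b) ^ m := Nat.pow_le_pow_left (Nat.lt_two_pow_self.le) m
      _ = (2 ^ m) ^ b := by rw [← pow_mul, ← pow_mul, mul_comm]
      _ ≤ (k ^ (U + 6)) ^ b := Nat.pow_le_pow_left hm3 b
      _ = k ^ (b * (U + 6)) := by rw [← pow_mul, mul_comm]
  obtain ⟨s, hs⟩ : ∃ s : ℝ, s = (S b D k).card := ⟨_, rfl⟩
  have hs0 : 0 ≤ s := by rw [hs]; exact Nat.cast_nonneg _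
  rw [← hs]
  have hz1' : k ^ E0 ≤ z := le_trans (Nat.pow_le_pow_right (by omega) (by omega)) hz1
  have hkz : k ≤ z := le_trans (Nat.le_self_pow (by omega) k) hz1
  have hz2r : (z : ℝ) ≤ (k : ℝ) ^ E := by exact_mod_cast hz2
  have hzhi : (z : ℝ) ≤ Real.log (N : ℝ) ^ E := hz2r.trans (pow_le_pow_left₀ hk0.le hl1 E)
  have hV := h3 N (by omega) z (by omega) hzhi
  have hV0 : 0 ≤ (Vz z)⁻¹ := inv_nonneg.2 (Vz_pos z).le
  -- the bad set for each block
  obtain ⟨Bd, hBd⟩ : ∃ Bd : ℕ → Finset ℤ, Bd = fun g => (Icc (-((B * N : ℕ) : ℤ)) ((B * N : ℕ) : ℤ)).filter (fun c : ℤ =>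
      s / (k : ℝ) ^ U1 < |∑ n ∈ S b D k, (if n / b ^ j < g then (1 : ℝ) else 0) * thp (F.eval (n : ℤ) + c).natAbs -
        (Vz z)⁻¹ * (base b k j D (fun x => if x < g then 1 else 0) F c * prodz b z F c)|) := ⟨_, rfl⟩
  have hBdc : ∀ g, ((Bd g).card : ℝ) ≤ N / (k : ℝ) ^ U1 := by
    intro g
    have h4 := h2 k (by omega) D hD j (by omega) (by omega) (fun x => if x < g then 1 else 0) (fun x => by split_ifs <;> norm_num) z hz1' hz2
    rw [← hN, ← hs] at h4
    rw [hBd]
    exact h4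
  -- comparison
  have hsub : (Icc (-((B * N : ℕ) : ℤ)) ((B * N : ℕ) : ℤ)).filter (fun c : ℤ =>
      ∃ y : ℕ, s / (k : ℝ) ^ U < |TH b k D F c y - (Vz z)⁻¹ * (BA b k D F c y * prodz b z F c)|) ⊆
      (range (b ^ m + 1)).biUnion Bd := by
    intro c hc
    rw [mem_filter] at hc
    obtain ⟨hc1, y, hy⟩ := hc
    rw [mem_biUnion]
    by_contra hcon
    push Not at hcon
    apply absurd hy
    rw [not_lt]
    have hthp : ∀ n ∈ S b D k, thp (F.eval (n : ℤ) + c).natAbs ≤ 2 * (k : ℝ) ^ 2 := by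
      intro n hn
      have hn' := (mem_S.1 hn).1
      have h4 := hBF b k (fun _ => n) (by omega) (fun _ => hn')
      rw [mv_eval] at h4
      have h5 : (F.eval (n : ℤ) + c).natAbs ≤ N * N := by
        have h6 : |F.eval (n : ℤ) + c| ≤ (BF + B : ℕ) * (N : ℤ) := by
          refine (abs_add_le _ _).trans ?_
          rw [mem_Icc] at hc1
          have h7 : |c| ≤ ((B * N : ℕ) : ℤ) := abs_le.2 hc1
          rw [hN] at h7 ⊢
          push_cast at h7 h4 ⊢
          linarith
        have h7 : ((F.eval (n : ℤ) + c).natAbs : ℤ) ≤ (BF + B : ℕ) * (N : ℤ) := by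
          rw [Int.natCast_natAbs]
          exact h6
        have h8 : (F.eval (n : ℤ) + c).natAbs ≤ (BF + B) * N := by exact_mod_cast h7
        refine h8.trans (Nat.mul_le_mul_right _ ?_)
        omega
      unfold Pool.Agent.R460.SQ.thp
      split_ifs with h6
      · have h7 : Real.log ((F.eval (n : ℤ) + c).natAbs : ℝ) ≤ Real.log ((N : ℝ) * N) :=
          Real.log_le_log (by exact_mod_cast h6.pos) (by exact_mod_cast h5)
        rw [Real.log_mul hNr.ne' hNr.ne'] at h7
        linarith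
      · positivity
    -- the block of `y`
    obtain ⟨g, hg⟩ : ∃ g, g = min (y / b ^ j) (b ^ m) := ⟨_, rfl⟩
    have hgr : g ∈ range (b ^ m + 1) := by rw [mem_range, hg]; omega
    have hg1 := hcon g hgr
    rw [hBd] at hg1
    simp only [mem_filter, not_and, not_lt] at hg1
    have hg2 := hg1 hc1
    have hbj : 0 < b ^ j := by positivity
    -- the elements between
    have hmem : ∀ n ∈ S b D k, (n / b ^ j < g → n < y) ∧ (n < y → n / b ^ j < g ∨ n / b ^ j = g) := by
      intro n hn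
      have hn' := (mem_S.1 hn).1
      have hnj : n / b ^ j < b ^ m := by
        rw [Nat.div_lt_iff_lt_mul hbj, ← pow_add]
        have : m + j = k := by omega
        rw [this]
        exact hn'
      constructor
      · intro h4
        have h5 : n / b ^ j < y / b ^ j := lt_of_lt_of_le h4 (by rw [hg]; exact min_le_left _ _)
        exact Nat.lt_of_div_lt_div h5
      · intro h4
        have h5 : n / b ^ j ≤ y / b ^ j := Nat.div_le_div_right h4.le
        have h6 : n / b ^ j ≤ g := by rw [hg]; exact le_min h5 hnj.le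
        omega
    have hblock : (((S b D k).filter (fun n => n / b ^ j = g)).card : ℝ) ≤ s / 2 ^ m := by
      have h4 := card_block b j m (by omega) D (by rw [hjk]; exact hD) g
      rw [hjk, ← hs] at h4
      exact h4
    have hd1 : |TH b k D F c y - ∑ n ∈ S b D k, (if n / b ^ j < g then (1 : ℝ) else 0) * thp (F.eval (n : ℤ) + c).natAbs| ≤
        s / 2 ^ m * (2 * (k : ℝ) ^ 2) := by
      unfold TH
      rw [sum_filter, ← sum_sub_distrib]
      refine (abs_sum_le_sum_abs _ _).trans ?_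
      calc ∑ n ∈ S b D k, |(if n < y then thp (F.eval (n : ℤ) + c).natAbs else 0) -
            (if n / b ^ j < g then (1 : ℝ) else 0) * thp (F.eval (n : ℤ) + c).natAbs|
          ≤ ∑ n ∈ S b D k, if n / b ^ j = g then 2 * (k : ℝ) ^ 2 else 0 := by
            refine sum_le_sum fun n hn => ?_
            have h4 := hthp n hn
            have h5 : 0 ≤ thp (F.eval (n : ℤ) + c).natAbs := by
              unfold Pool.Agent.R460.SQ.thp
              split_ifs
              · exact Real.log_natCast_nonneg _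
              · exact le_rfl
            obtain ⟨h6, h7⟩ := hmem n hn
            by_cases h8 : n / b ^ j < g
            · rw [if_pos (h6 h8), if_pos h8, one_mul, sub_self, abs_zero]
              split_ifs <;> positivity
            · rw [if_neg h8, zero_mul, sub_zero]
              by_cases h9 : n < y
              · rw [if_pos h9, if_pos ((h7 h9).resolve_left h8), abs_of_nonneg h5]
                exact h4
              · rw [if_neg h9, abs_zero]
                split_ifs <;> positivity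
        _ = (((S b D k).filter (fun n => n / b ^ j = g)).card : ℝ) * (2 * (k : ℝ) ^ 2) := by
            rw [← sum_filter, sum_const, nsmul_eq_mul]
        _ ≤ _ := mul_le_mul_of_nonneg_right hblock (by positivity)
    have hd2 : |(BA b k D F c y : ℝ) - base b k j D (fun x => if x < g then 1 else 0) F c| ≤ s / 2 ^ m := by
      unfold BA base
      rw [card_filter]
      push_cast
      rw [sum_filter, ← sum_sub_distrib]
      refine (abs_sum_le_sum_abs _ _).trans ?_
      calc _ ≤ ∑ n ∈ S b D k, if n / b ^ j = g then (1 : ℝ) else 0 := by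
            refine sum_le_sum fun n hn => ?_
            obtain ⟨h6, h7⟩ := hmem n hn
            by_cases h10 : ∀ p ∈ pz b, ¬ (p : ℤ) ∣ F.eval (n : ℤ) + c
            · by_cases h8 : n / b ^ j < g
              · rw [if_pos ⟨h6 h8, h10⟩, if_pos h10, if_pos h8, sub_self, abs_zero]
                split_ifs <;> norm_num
              · rw [if_pos h10, if_neg h8, sub_zero]
                by_cases h9 : n < y
                · rw [if_pos ⟨h9, h10⟩, if_pos ((h7 h9).resolve_left h8)]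
                  norm_num
                · rw [if_neg (fun h => h9 h.1), abs_zero]
                  split_ifs <;> norm_num
            · rw [if_neg (fun h => h10 h.2), if_neg h10, sub_zero, abs_zero]
              split_ifs <;> norm_num
        _ = (((S b D k).filter (fun n => n / b ^ j = g)).card : ℝ) := by
            rw [← sum_filter, sum_const, nsmul_eq_mul, mul_one]
        _ ≤ _ := hblock
    have hprod : |prodz b z F c| ≤ 1 := by
      unfold prodz
      rw [abs_prod]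
      apply prod_le_one (fun _ _ => abs_nonneg _)
      intro p hp
      rw [mem_filter, mem_pz] at hp
      have hp0 : (0 : ℝ) < p := by exact_mod_cast hp.1.2.pos
      have h4 : (rho F c p : ℝ) ≤ p := by
        unfold Pool.Agent.TH204.WR.rho
        exact_mod_cast (card_filter_le _ _).trans (by rw [card_range])
      have h5 : (rho F c p : ℝ) / p ≤ 1 := (div_le_one hp0).2 h4
      have h6 : 0 ≤ (rho F c p : ℝ) / p := by positivity
      rw [abs_le]
      constructor <;> linarith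
    have e1 : TH b k D F c y - (Vz z)⁻¹ * (BA b k D F c y * prodz b z F c) =
        (TH b k D F c y - ∑ n ∈ S b D k, (if n / b ^ j < g then (1 : ℝ) else 0) * thp (F.eval (n : ℤ) + c).natAbs) +
        (∑ n ∈ S b D k, (if n / b ^ j < g then (1 : ℝ) else 0) * thp (F.eval (n : ℤ) + c).natAbs -
        (Vz z)⁻¹ * (base b k j D (fun x => if x < g then 1 else 0) F c * prodz b z F c)) -
        (Vz z)⁻¹ * (((BA b k D F c y : ℝ) - base b k j D (fun x => if x < g then 1 else 0) F c) * prodz b z F c) := by ring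
    rw [e1]
    refine (abs_sub _ _).trans ?_
    have h4 : |(Vz z)⁻¹ * (((BA b k D F c y : ℝ) - base b k j D (fun x => if x < g then 1 else 0) F c) * prodz b z F c)| ≤
        (k : ℝ) ^ 2 * (s / 2 ^ m) := by
      rw [abs_mul, abs_of_nonneg hV0, abs_mul]
      apply mul_le_mul (hV.trans hl2) _ (by positivity) (by positivity)
      calc _ ≤ s / 2 ^ m * 1 := mul_le_mul hd2 hprod (abs_nonneg _) (by positivity)
        _ = _ := mul_one _
    refine (add_le_add ((abs_add_le _ _).trans (add_le_add hd1 hg2)) h4).trans ?_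
    have h5 : s / 2 ^ m ≤ s / (8 * (k : ℝ) ^ (U + 4)) := by
      apply div_le_div_of_nonneg_left hs0 (by positivity)
      exact_mod_cast hm1
    have h6 : s / (k : ℝ) ^ U1 ≤ s / (k : ℝ) ^ (U + 1) := by
      apply div_le_div_of_nonneg_left hs0 (by positivity)
      apply pow_le_pow_right₀ hk1
      rw [hU1]
      omega
    have h7 : s / (8 * (k : ℝ) ^ (U + 4)) * (2 * (k : ℝ) ^ 2) + s / (k : ℝ) ^ (U + 1) + (k : ℝ) ^ 2 * (s / (8 * (k : ℝ) ^ (U + 4))) ≤ s / (k : ℝ) ^ U := by
      have e2 : s / (8 * (k : ℝ) ^ (U + 4)) * (2 * (k : ℝ) ^ 2) + s / (k : ℝ) ^ (U + 1) + (k : ℝ) ^ 2 * (s / (8 * (k : ℝ) ^ (U + 4))) =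
          (s / (k : ℝ) ^ U) * (3 / (8 * (k : ℝ) ^ 2) + 1 / k) := by
        rw [pow_add _ U 4, pow_succ _ U]
        field_simp
        ring
      rw [e2]
      have h8 : 3 / (8 * (k : ℝ) ^ 2) + 1 / k ≤ 1 := by
        have h9 : 3 / (8 * (k : ℝ) ^ 2) ≤ 1 / 2 := by
          rw [div_le_div_iff₀ (by positivity) (by norm_num)]
          nlinarith
        have h10 : 1 / (k : ℝ) ≤ 1 / 2 := one_div_le_one_div_of_le (by norm_num) (by linarith)
        linarith
      calc _ ≤ s / (k : ℝ) ^ U * 1 := mul_le_mul_of_nonneg_left h8 (by positivity)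
        _ = _ := mul_one _
    refine le_trans ?_ h7
    have h8 : s / 2 ^ m * (2 * (k : ℝ) ^ 2) ≤ s / (8 * (k : ℝ) ^ (U + 4)) * (2 * (k : ℝ) ^ 2) :=
      mul_le_mul_of_nonneg_right h5 (by positivity)
    have h9 : (k : ℝ) ^ 2 * (s / 2 ^ m) ≤ (k : ℝ) ^ 2 * (s / (8 * (k : ℝ) ^ (U + 4))) :=
      mul_le_mul_of_nonneg_left h5 (by positivity)
    linarith
  have hcard : (((Icc (-((B * N : ℕ) : ℤ)) ((B * N : ℕ) : ℤ)).filter (fun c : ℤ =>
      ∃ y : ℕ, s / (k : ℝ) ^ U < |TH b k D F c y - (Vz z)⁻¹ * (BA b k D F c y * prodz b z F c)|)).card : ℝ) ≤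
      ∑ g ∈ range (b ^ m + 1), ((Bd g).card : ℝ) := by
    exact_mod_cast (card_le_card hsub).trans card_biUnion_le
  refine hcard.trans ((sum_le_sum fun g _ => hBdc g).trans ?_)
  rw [sum_const, card_range, nsmul_eq_mul]
  have h4 : ((b ^ m + 1 : ℕ) : ℝ) ≤ (k : ℝ) ^ (b * (U + 7)) := by
    have h5 : b ^ m + 1 ≤ k ^ (b * (U + 7)) := by
      have h6 : k ^ (b * (U + 6)) * k ≤ k ^ (b * (U + 7)) := by
        rw [← pow_succ]
        exact Nat.pow_le_pow_right (by omega) (by nlinarith)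
      have h7 : 1 ≤ k ^ (b * (U + 6)) := Nat.one_le_pow _ _ (by omega)
      nlinarith
    exact_mod_cast h5
  calc ((b ^ m + 1 : ℕ) : ℝ) * (N / (k : ℝ) ^ U1) ≤ (k : ℝ) ^ (b * (U + 7)) * (N / (k : ℝ) ^ U1) :=
        mul_le_mul_of_nonneg_right h4 (by positivity)
    _ = N / (k : ℝ) ^ (U + 2) := by
        rw [hU1, show U + 1 + b * (U + 7) + 1 = b * (U + 7) + (U + 2) by ring, pow_add _ (b * (U + 7))]
        field_simp
    _ ≤ N / (k : ℝ) ^ U := by
        apply div_le_div_of_nonneg_left hNr.le (by positivity)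
        exact pow_le_pow_right₀ hk1 (by omega)

end Pool.Agent.U108.PV
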