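import Pool.Agent.U108.DP.W1
import Pool.Agent.TH872.GQ.Fam

set_option autoImplicit false

/-! Integers with restricted digits in residue classes: splitting the digits, exponential sums. -/

namespace Pool.Agent.U108.PV
open Finset
open Pool.Agent.U108.ML
open Pool.Agent.U108.DP (digit)
open Pool.Agent.TH872.GQ (S)
open Pool.Agent.TH872.Sq (nn nn_nonneg nn_le nn_half nn_add_int nn_sub_int gg gg_nonneg gg_le_one g0 g0_bounds)

lemma mem_S {b k : ℕ} {D : ℕ → Finset ℕ} {n : ℕ} : n ∈ S b D k ↔ n < b ^ k ∧ ∀ i < k, n / b ^ i % b ∈ D i := by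
  unfold S
  rw [mem_filter, mem_range]

/-- splitting the digits -/
theorem sum_split {M : Type*} [AddCommMonoid M] (b j t : ℕ) (hb : 1 ≤ b) (D : ℕ → Finset ℕ) (f : ℕ → M) :
    ∑ n ∈ S b D (j + t), f n = ∑ h ∈ S b (fun i => D (j + i)) t, ∑ l ∈ S b D j, f (l + b ^ j * h) := by
  have hbj : 0 < b ^ j := by positivity
  rw [← sum_product']
  symm
  refine sum_bij (fun x _ => x.2 + b ^ j * x.1) ?_ ?_ ?_ ?_
  · rintro ⟨h, l⟩ hx
    rw [mem_product, mem_S, mem_S] at hx
    obtain ⟨⟨h1, h2⟩, h3, h4⟩ := hx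
    simp only at h1 h2 h3 h4 ⊢
    rw [mem_S]
    constructor
    · rw [pow_add]
      calc l + b ^ j * h < b ^ j + b ^ j * h := by omega
        _ = b ^ j * (h + 1) := by ring
        _ ≤ b ^ j * b ^ t := Nat.mul_le_mul_left _ h1
    · intro i hi
      rcases Nat.lt_or_ge i j with hij | hij
      · have h5 := h4 i hij
        obtain ⟨d, rfl⟩ : ∃ d, j = i + (d + 1) := ⟨j - i - 1, by omega⟩
        have h6 : (l + b ^ (i + (d + 1)) * h) / b ^ i = l / b ^ i + b * (b ^ d * h) := by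
          rw [show b ^ (i + (d + 1)) * h = b ^ i * (b * (b ^ d * h)) by rw [pow_add, pow_succ]; ring,
            Nat.add_mul_div_left _ _ (by positivity)]
        rw [h6, Nat.add_mul_mod_self_left]
        exact h5
      · obtain ⟨d, rfl⟩ : ∃ d, i = j + d := ⟨i - j, by omega⟩
        have h5 := h2 d (by omega)
        rw [pow_add, ← Nat.div_div_eq_div_mul, Nat.add_mul_div_left _ _ hbj, Nat.div_eq_of_lt h3, zero_add]
        exact h5
  · rintro ⟨h, l⟩ hx ⟨h', l'⟩ hx' he
    rw [mem_product, mem_S, mem_S] at hx hx'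
    simp only at hx hx' he ⊢
    have e1 : (l + b ^ j * h) / b ^ j = h := by rw [Nat.add_mul_div_left _ _ hbj, Nat.div_eq_of_lt hx.2.1, zero_add]
    have e2 : (l' + b ^ j * h') / b ^ j = h' := by rw [Nat.add_mul_div_left _ _ hbj, Nat.div_eq_of_lt hx'.2.1, zero_add]
    have e3 : h = h' := by rw [← e1, ← e2, he]
    subst e3
    have e4 : l = l' := by omega
    rw [e4]
  · intro n hn
    rw [mem_S] at hn
    obtain ⟨h1, h2⟩ := hn
    refine ⟨(n / b ^ j, n % b ^ j), ?_, by simp only; rw [add_comm]; exact Nat.div_add_mod n (b ^ j)⟩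
    rw [mem_product, mem_S, mem_S]
    simp only
    refine ⟨⟨?_, ?_⟩, Nat.mod_lt _ hbj, ?_⟩
    · rw [Nat.div_lt_iff_lt_mul hbj, ← pow_add, add_comm]
      exact h1
    · intro i hi
      have h3 := h2 (j + i) (by omega)
      rw [pow_add, ← Nat.div_div_eq_div_mul] at h3
      exact h3
    · intro i hi
      have h3 := h2 i (by omega)
      have h4 : n % b ^ j / b ^ i % b = n / b ^ i % b := by
        obtain ⟨d, rfl⟩ : ∃ d, j = i + (d + 1) := ⟨j - i - 1, by omega⟩
        conv_rhs => rw [← Nat.mod_add_div n (b ^ (i + (d + 1)))]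
        have h6 : (n % b ^ (i + (d + 1)) + b ^ (i + (d + 1)) * (n / b ^ (i + (d + 1)))) / b ^ i =
            n % b ^ (i + (d + 1)) / b ^ i + b * (b ^ d * (n / b ^ (i + (d + 1)))) := by
          rw [show b ^ (i + (d + 1)) * (n / b ^ (i + (d + 1))) = b ^ i * (b * (b ^ d * (n / b ^ (i + (d + 1))))) by
            rw [pow_add b i (d + 1), pow_succ]; ring, Nat.add_mul_div_left _ _ (by positivity)]
        rw [h6, Nat.add_mul_mod_self_left]
      rw [h4]
      exact h3
  · intro x _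
    rfl

lemma card_split (b j t : ℕ) (hb : 1 ≤ b) (D : ℕ → Finset ℕ) :
    (S b D (j + t)).card = (S b (fun i => D (j + i)) t).card * (S b D j).card := by
  have h := sum_split b j t hb D (fun _ => 1)
  simp only [sum_const, smul_eq_mul, mul_one] at h
  rw [h]

lemma S_zero (b : ℕ) (D : ℕ → Finset ℕ) : S b D 0 = {0} := by
  ext n
  rw [mem_S, mem_singleton, pow_zero]
  constructor
  · rintro ⟨h, _⟩
    omega
  · rintro rfl
    exact ⟨by omega, fun i hi => by omega⟩

lemma S_one (b : ℕ) (D : ℕ → Finset ℕ) (hD : D 0 ⊆ range b) : S b D 1 = D 0 := by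
  ext n
  rw [mem_S, pow_one]
  constructor
  · rintro ⟨h1, h2⟩
    have h3 := h2 0 (by omega)
    rwa [pow_zero, Nat.div_one, Nat.mod_eq_of_lt h1] at h3
  · intro h
    have h1 := mem_range.1 (hD h)
    refine ⟨h1, fun i hi => ?_⟩
    have : i = 0 := by omega
    subst this
    rw [pow_zero, Nat.div_one, Nat.mod_eq_of_lt h1]
    exact h

/-- exponential sums over integers with restricted digits -/
theorem char_S {b : ℕ} (hb : 2 ≤ b) (D : ℕ → Finset ℕ) (j : ℕ) (hD : ∀ i < j, D i ⊆ range b ∧ 2 ≤ (D i).card) (θ : ℝ) :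
    ‖∑ l ∈ S b D j, e (l * θ)‖ ≤ (S b D j).card * ∏ i ∈ range j, gg b (g0 b (1 / 2)) ((b : ℝ) ^ i * (b.factorial * θ)) := by
  induction j with
  | zero =>
    rw [S_zero, sum_singleton, card_singleton, range_zero, prod_empty, e_norm]
    norm_num
  | succ j ih =>
    have ih' := ih (fun i hi => hD i (by omega))
    have h1 := sum_split b j 1 (by omega) D (fun l => e (l * θ))
    have h2 := card_split b j 1 (by omega) D
    have h3 : S b (fun i => D (j + i)) 1 = D j := S_one b (fun i => D (j + i)) (hD j (by omega)).1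
    rw [h1, h2, h3]
    have h4 : ∑ h ∈ D j, ∑ l ∈ S b D j, e (((l + b ^ j * h : ℕ) : ℝ) * θ) =
        (∑ h ∈ D j, e (h * ((b : ℝ) ^ j * θ))) * ∑ l ∈ S b D j, e (l * θ) := by
      rw [sum_mul]
      refine sum_congr rfl fun h _ => ?_
      rw [mul_sum]
      refine sum_congr rfl fun l _ => ?_
      rw [← e_add]
      congr 1
      push_cast
      ring
    rw [h4, norm_mul, prod_range_succ]
    have h5 := digit hb (D j) (hD j (by omega)).1 (hD j (by omega)).2 ((b : ℝ) ^ j * θ)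
    have e1 : (b.factorial : ℝ) * ((b : ℝ) ^ j * θ) = (b : ℝ) ^ j * (b.factorial * θ) := by ring
    rw [e1] at h5
    have hg0 : 0 ≤ g0 b (1 / 2) := (g0_bounds b hb (1 / 2) (by norm_num) (by norm_num)).1
    calc _ ≤ ((D j).card * gg b (g0 b (1 / 2)) ((b : ℝ) ^ j * (b.factorial * θ))) *
          ((S b D j).card * ∏ i ∈ range j, gg b (g0 b (1 / 2)) ((b : ℝ) ^ i * (b.factorial * θ))) :=
          mul_le_mul h5 ih' (norm_nonneg _) (mul_nonneg (Nat.cast_nonneg _) (gg_nonneg _ _ _ hg0))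
      _ = _ := by push_cast; ring

/-- if `b^s β` is not within `1 / (2 b)` of an integer for no `s ≤ i < s + L`, then `b^s β` is an integer or very close to it -/
lemma nn_pow (b : ℕ) (hb : 2 ≤ b) (x : ℝ) : ∀ L : ℕ, (∀ i < L, nn ((b : ℝ) ^ i * x) < 1 / (2 * (b : ℝ))) →
    nn ((b : ℝ) ^ L * x) = (b : ℝ) ^ L * nn x := by
  have hb0 : (0 : ℝ) < b := by exact_mod_cast (by omega : 0 < b)
  intro L
  induction L with
  | zero => intro _; simp
  | succ L ih =>
    intro h
    have h1 := ih (fun i hi => h i (by omega))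
    have h2 := h L (by omega)
    obtain ⟨y, hy⟩ : ∃ y, y = (b : ℝ) ^ L * x := ⟨_, rfl⟩
    have e1 : (b : ℝ) ^ (L + 1) * x = b * y := by rw [hy]; ring
    rw [← hy] at h1 h2
    rw [e1]
    have h3 : nn (b * y) = b * nn y := by
      have e2 : (b : ℝ) * y = b * (y - round y) + ((b * round y : ℤ) : ℝ) := by push_cast; ring
      rw [e2, nn_add_int]
      have h4 : |b * (y - round y)| < 1 / 2 := by
        rw [abs_mul, abs_of_pos hb0]
        unfold nn at h2
        rw [lt_div_iff₀ (by positivity)] at h2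
        linarith
      have h5 : round ((b : ℝ) * (y - round y)) = 0 := by
        rw [round_eq_zero_iff]
        have := abs_lt.1 h4
        exact ⟨by linarith [this.1], by linarith [this.2]⟩
      unfold nn
      rw [h5]
      simp only [Int.cast_zero, sub_zero]
      rw [abs_mul, abs_of_pos hb0]
    rw [h3, h1]
    ring

/-- a fraction with a denominator prime to `b` has a good position in every block -/
lemma good_pos (b : ℕ) (hb : 2 ≤ b) (m L : ℕ) (hm : 1 ≤ m) (hmb : m.Coprime b) (hL : m ≤ b ^ L) (h : ℤ) (hh : ¬ (m : ℤ) ∣ h) (s : ℕ) :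
    ∃ i, s ≤ i ∧ i < s + L ∧ 1 / (2 * (b : ℝ)) ≤ nn ((b : ℝ) ^ i * (h / m)) := by
  by_contra hcon
  push Not at hcon
  have hm0 : (0 : ℝ) < m := by exact_mod_cast (by omega : 0 < m)
  have hb0 : (0 : ℝ) < b := by exact_mod_cast (by omega : 0 < b)
  obtain ⟨x, hx⟩ : ∃ x, x = (b : ℝ) ^ s * (h / m) := ⟨_, rfl⟩
  have h1 := nn_pow b hb x L (fun i hi => by
    have h2 := hcon (s + i) (by omega) (by omega)
    have e1 : (b : ℝ) ^ (s + i) * (h / m) = (b : ℝ) ^ i * x := by rw [hx, pow_add]; ring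
    rw [e1] at h2
    exact h2)
  have h2 : 1 / (m : ℝ) ≤ nn x := by
    unfold nn
    have e1 : x - round x = (((b : ℤ) ^ s * h - m * round x : ℤ) : ℝ) / m := by
      rw [hx]
      push_cast
      field_simp
    rw [e1, abs_div, abs_of_pos hm0]
    apply div_le_div_of_nonneg_right _ hm0.le
    have h3 : (b : ℤ) ^ s * h - m * round x ≠ 0 := by
      intro h4
      apply hh
      have h5 : (m : ℤ) ∣ (b : ℤ) ^ s * h := ⟨round x, by linarith⟩
      have h6 : IsCoprime (m : ℤ) ((b : ℤ) ^ s) := by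
        apply IsCoprime.pow_right
        exact Nat.isCoprime_iff_coprime.2 hmb
      exact h6.dvd_of_dvd_mul_left h5
    have h4 : (1 : ℤ) ≤ |(b : ℤ) ^ s * h - m * round x| := Int.one_le_abs h3
    exact_mod_cast h4
  have h3 := nn_half ((b : ℝ) ^ L * x)
  rw [h1] at h3
  have h4 : (m : ℝ) ≤ (b : ℝ) ^ L := by exact_mod_cast hL
  have h5 : 1 ≤ (b : ℝ) ^ L * nn x := by
    calc (1 : ℝ) = m * (1 / m) := by field_simp
      _ ≤ (b : ℝ) ^ L * nn x := mul_le_mul h4 h2 (by positivity) (by positivity)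
  linarith

/-- the product over the positions is small -/
lemma prod_small (b : ℕ) (hb : 2 ≤ b) (m L : ℕ) (hm : 1 ≤ m) (hmb : m.Coprime b) (hL : m ≤ b ^ L) (h : ℤ) (hh : ¬ (m : ℤ) ∣ h)
    (T : ℕ) : ∏ i ∈ range (L * T), gg b (g0 b (1 / 2)) ((b : ℝ) ^ i * (h / m)) ≤ g0 b (1 / 2) ^ T := by
  obtain ⟨hg0, hg1⟩ := g0_bounds b hb (1 / 2) (by norm_num) (by norm_num)
  induction T with
  | zero => simp
  | succ T ih =>
    rw [Nat.mul_succ, prod_range_add, pow_succ]
    apply mul_le_mul ih _ (prod_nonneg fun i _ => gg_nonneg _ _ _ hg0) (pow_nonneg hg0 _)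
    obtain ⟨i, hi1, hi2, hi3⟩ := good_pos b hb m L hm hmb hL h hh (L * T)
    have hmem : i - L * T ∈ range L := mem_range.2 (by omega)
    rw [← mul_prod_erase _ _ hmem]
    have e1 : L * T + (i - L * T) = i := by omega
    have e2 : gg b (g0 b (1 / 2)) ((b : ℝ) ^ (L * T + (i - L * T)) * (h / m)) = g0 b (1 / 2) := by
      rw [e1]
      unfold gg
      rw [if_pos hi3]
    rw [e2]
    have h3 : ∏ x ∈ (range L).erase (i - L * T), gg b (g0 b (1 / 2)) ((b : ℝ) ^ (L * T + x) * (h / m)) ≤ 1 :=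
      prod_le_one (fun x _ => gg_nonneg _ _ _ hg0) (fun x _ => gg_le_one _ _ _ hg1.le)
    calc _ ≤ g0 b (1 / 2) * 1 := mul_le_mul_of_nonneg_left h3 hg0
      _ = _ := mul_one _

end Pool.Agent.U108.PV
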