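import Pool.Agent.U108.PV.A

set_option autoImplicit false

/-! Equidistribution of integers with restricted digits in the residue classes of a modulus prime to the small primes. -/

namespace Pool.Agent.U108.PV
open Finset
open Pool.Agent.U108.ML
open Pool.Agent.TH872.GQ (S)
open Pool.Agent.TH872.Sq (nn gg gg_nonneg gg_le_one g0 g0_bounds)

/-- the exponential sum with a weight depending only on the upper digits -/
noncomputable def W (b j t : ℕ) (D : ℕ → Finset ℕ) (w : ℕ → ℝ) (θ : ℝ) : ℂ :=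
  ∑ n ∈ S b D (j + t), (w (n / b ^ j) : ℂ) * e (n * θ)

lemma W_le {b : ℕ} (hb : 2 ≤ b) (j t : ℕ) (D : ℕ → Finset ℕ) (hD : ∀ i < j, D i ⊆ range b ∧ 2 ≤ (D i).card) (w : ℕ → ℝ)
    (hw : ∀ x, |w x| ≤ 1) (θ : ℝ) :
    ‖W b j t D w θ‖ ≤ (S b D (j + t)).card * ∏ i ∈ range j, gg b (g0 b (1 / 2)) ((b : ℝ) ^ i * (b.factorial * θ)) := by
  have hbj : 0 < b ^ j := by positivity
  unfold W
  rw [sum_split b j t (by omega) D, card_split b j t (by omega) D]
  have h1 : ∀ h ∈ S b (fun i => D (j + i)) t, ∑ l ∈ S b D j, (w ((l + b ^ j * h) / b ^ j) : ℂ) * e (((l + b ^ j * h : ℕ) : ℝ) * θ) =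
      (w h : ℂ) * e ((b ^ j * h : ℕ) * θ) * ∑ l ∈ S b D j, e (l * θ) := by
    intro h _
    rw [mul_sum]
    refine sum_congr rfl fun l hl => ?_
    have h2 : (l + b ^ j * h) / b ^ j = h := by
      rw [Nat.add_mul_div_left _ _ hbj, Nat.div_eq_of_lt (mem_S.1 hl).1, zero_add]
    rw [h2, mul_assoc, ← e_add]
    congr 2
    push_cast
    ring
  rw [sum_congr rfl h1, ← sum_mul, norm_mul]
  have h2 := char_S hb D j hD θ
  have h3 : ‖∑ h ∈ S b (fun i => D (j + i)) t, (w h : ℂ) * e ((b ^ j * h : ℕ) * θ)‖ ≤ (S b (fun i => D (j + i)) t).card := by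
    refine (norm_sum_le _ _).trans ?_
    refine (sum_le_card_nsmul _ _ 1 fun h _ => ?_).trans (by rw [nsmul_eq_mul, mul_one])
    rw [norm_mul, e_norm, mul_one, Complex.norm_real]
    exact hw h
  calc _ ≤ ((S b (fun i => D (j + i)) t).card : ℝ) *
        ((S b D j).card * ∏ i ∈ range j, gg b (g0 b (1 / 2)) ((b : ℝ) ^ i * (b.factorial * θ))) :=
        mul_le_mul h3 h2 (norm_nonneg _) (Nat.cast_nonneg _)
    _ = _ := by push_cast; ring

lemma class_sum (b j t : ℕ) (D : ℕ → Finset ℕ) (w : ℕ → ℝ) (q a : ℕ) (hq : 1 ≤ q) :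
    ((∑ n ∈ (S b D (j + t)).filter (fun n => n ≡ a [MOD q]), w (n / b ^ j) : ℝ) : ℂ) =
      (1 / (q : ℂ)) * ∑ h ∈ range q, e (-((h : ℝ) * (a / q))) * W b j t D w (h / q) := by
  have hq0 : (q : ℂ) ≠ 0 := by exact_mod_cast (by omega : q ≠ 0)
  have h1 : ∀ h ∈ range q, e (-((h : ℝ) * (a / q))) * W b j t D w (h / q) =
      ∑ n ∈ S b D (j + t), (w (n / b ^ j) : ℂ) * e ((h : ℝ) * ((((n : ℤ) - a : ℤ) : ℝ) / q)) := by
    intro h _
    unfold W
    rw [mul_sum]
    refine sum_congr rfl fun n _ => ?_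
    have e1 : e ((h : ℝ) * ((((n : ℤ) - a : ℤ) : ℝ) / q)) = e (-((h : ℝ) * (a / q))) * e (n * (h / q)) := by
      rw [← e_add]
      congr 1
      push_cast
      ring
    rw [e1]
    ring
  rw [sum_congr rfl h1, sum_comm, mul_sum]
  push_cast
  rw [sum_filter]
  refine sum_congr rfl fun n _ => ?_
  rw [← mul_sum]
  have h2 := e_orth q hq ((n : ℤ) - a)
  push_cast at h2 ⊢
  rw [h2]
  have h3 : (n ≡ a [MOD q]) ↔ (q : ℤ) ∣ (n : ℤ) - a := by
    rw [Nat.ModEq.comm]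
    exact Nat.modEq_iff_dvd
  by_cases h4 : n ≡ a [MOD q]
  · rw [if_pos h4, if_pos (h3.1 h4)]
    field_simp
  · rw [if_neg h4, if_neg (fun h => h4 (h3.2 h))]
    ring

/-- **Equidistribution.** -/
theorem equi {b : ℕ} (hb : 2 ≤ b) (j t : ℕ) (D : ℕ → Finset ℕ) (hD : ∀ i < j, D i ⊆ range b ∧ 2 ≤ (D i).card) (w : ℕ → ℝ)
    (hw : ∀ x, |w x| ≤ 1) (m L T : ℕ) (hm : 1 ≤ m) (hmb : m.Coprime b) (hL : m ≤ b ^ L) (hT : L * T ≤ j) (a : ℕ) :
    |∑ n ∈ (S b D (j + t)).filter (fun n => n ≡ a [MOD b.factorial * m]), w (n / b ^ j) -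
      (1 / (m : ℝ)) * ∑ n ∈ (S b D (j + t)).filter (fun n => n ≡ a [MOD b.factorial]), w (n / b ^ j)| ≤
      (S b D (j + t)).card * g0 b (1 / 2) ^ T := by
  obtain ⟨f, hf⟩ : ∃ f, f = b.factorial := ⟨_, rfl⟩
  have hf1 : 1 ≤ f := by rw [hf]; exact Nat.factorial_pos b
  obtain ⟨hg0, hg1⟩ := g0_bounds b hb (1 / 2) (by norm_num) (by norm_num)
  rw [← hf]
  have hq1 : 1 ≤ f * m := Nat.mul_pos hf1 hm
  have hm0 : (m : ℂ) ≠ 0 := by exact_mod_cast (by omega : m ≠ 0)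
  have hf0 : (f : ℂ) ≠ 0 := by exact_mod_cast (by omega : f ≠ 0)
  have hmr : (m : ℝ) ≠ 0 := by exact_mod_cast (by omega : m ≠ 0)
  have hfr : (f : ℝ) ≠ 0 := by exact_mod_cast (by omega : f ≠ 0)
  have key : ((∑ n ∈ (S b D (j + t)).filter (fun n => n ≡ a [MOD f * m]), w (n / b ^ j) -
      (1 / (m : ℝ)) * ∑ n ∈ (S b D (j + t)).filter (fun n => n ≡ a [MOD f]), w (n / b ^ j) : ℝ) : ℂ) =
      (1 / ((f * m : ℕ) : ℂ)) * ∑ h ∈ (range (f * m)).filter (fun h => ¬ m ∣ h),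
        e (-((h : ℝ) * (a / ((f * m : ℕ) : ℝ)))) * W b j t D w (h / ((f * m : ℕ) : ℝ)) := by
    have h1 := class_sum b j t D w (f * m) a hq1
    have h2 := class_sum b j t D w f a hf1
    rw [Complex.ofReal_sub, Complex.ofReal_mul, h1, h2]
    rw [← sum_filter_add_sum_filter_not (range (f * m)) (fun h => m ∣ h)]
    have h3 : ∑ h ∈ (range (f * m)).filter (fun h => m ∣ h),
        e (-((h : ℝ) * (a / ((f * m : ℕ) : ℝ)))) * W b j t D w (h / ((f * m : ℕ) : ℝ)) =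
        ∑ h ∈ range f, e (-((h : ℝ) * (a / f))) * W b j t D w (h / f) := by
      symm
      refine sum_bij (fun h _ => m * h) ?_ ?_ ?_ ?_
      · intro h hh
        rw [mem_range] at hh
        rw [mem_filter, mem_range]
        refine ⟨?_, dvd_mul_right _ _⟩
        rw [mul_comm f m]
        exact Nat.mul_lt_mul_of_pos_left hh (by omega)
      · intro h _ h' _ he
        exact Nat.eq_of_mul_eq_mul_left (by omega) he
      · intro h hh
        rw [mem_filter, mem_range] at hh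
        obtain ⟨hh1, c, rfl⟩ := hh
        refine ⟨c, ?_, rfl⟩
        rw [mem_range]
        rw [mul_comm f m] at hh1
        exact Nat.lt_of_mul_lt_mul_left hh1
      · intro h _
        congr 2
        · push_cast
          field_simp
        · push_cast
          field_simp
    rw [h3]
    generalize (∑ h ∈ range f, e (-((h : ℝ) * (a / f))) * W b j t D w (h / f)) = X
    generalize (∑ h ∈ (range (f * m)).filter (fun h => ¬ m ∣ h),
        e (-((h : ℝ) * (a / ((f * m : ℕ) : ℝ)))) * W b j t D w (h / ((f * m : ℕ) : ℝ))) = Y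
    push_cast
    field_simp
    ring
  have h4 : |∑ n ∈ (S b D (j + t)).filter (fun n => n ≡ a [MOD f * m]), w (n / b ^ j) -
      (1 / (m : ℝ)) * ∑ n ∈ (S b D (j + t)).filter (fun n => n ≡ a [MOD f]), w (n / b ^ j)| =
      ‖((∑ n ∈ (S b D (j + t)).filter (fun n => n ≡ a [MOD f * m]), w (n / b ^ j) -
      (1 / (m : ℝ)) * ∑ n ∈ (S b D (j + t)).filter (fun n => n ≡ a [MOD f]), w (n / b ^ j) : ℝ) : ℂ)‖ := by
    rw [Complex.norm_real, Real.norm_eq_abs]
  rw [h4, key, norm_mul]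
  have hqr : (0 : ℝ) < ((f * m : ℕ) : ℝ) := by exact_mod_cast hq1
  have h5 : ‖∑ h ∈ (range (f * m)).filter (fun h => ¬ m ∣ h),
        e (-((h : ℝ) * (a / ((f * m : ℕ) : ℝ)))) * W b j t D w (h / ((f * m : ℕ) : ℝ))‖ ≤
      ((f * m : ℕ) : ℝ) * ((S b D (j + t)).card * g0 b (1 / 2) ^ T) := by
    refine (norm_sum_le _ _).trans ?_
    refine (sum_le_card_nsmul _ _ ((S b D (j + t)).card * g0 b (1 / 2) ^ T) fun h hh => ?_).trans ?_
    · rw [mem_filter] at hh
      rw [norm_mul, e_norm, one_mul]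
      refine (W_le hb j t D hD w hw _).trans ?_
      apply mul_le_mul_of_nonneg_left _ (Nat.cast_nonneg _)
      have e1 : (b.factorial : ℝ) * ((h : ℝ) / ((f * m : ℕ) : ℝ)) = ((h : ℤ) : ℝ) / m := by
        rw [← hf]
        push_cast
        field_simp
      rw [e1]
      have h6 := prod_small b hb m L hm hmb hL h (by
        intro h7
        exact hh.2 (by exact_mod_cast h7)) T
      refine le_trans ?_ h6
      obtain ⟨d, hd⟩ : ∃ d, j = L * T + d := ⟨j - L * T, by omega⟩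
      rw [hd, prod_range_add]
      have h8 : ∏ x ∈ range d, gg b (g0 b (1 / 2)) ((b : ℝ) ^ (L * T + x) * (((h : ℤ) : ℝ) / m)) ≤ 1 :=
        prod_le_one (fun x _ => gg_nonneg _ _ _ hg0) (fun x _ => gg_le_one _ _ _ hg1.le)
      calc _ ≤ (∏ x ∈ range (L * T), gg b (g0 b (1 / 2)) ((b : ℝ) ^ x * (((h : ℤ) : ℝ) / m))) * 1 :=
            mul_le_mul_of_nonneg_left h8 (prod_nonneg fun x _ => gg_nonneg _ _ _ hg0)
        _ = _ := mul_one _
    · rw [nsmul_eq_mul]
      apply mul_le_mul_of_nonneg_right _ (by positivity)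
      exact_mod_cast (card_filter_le _ _).trans (by rw [card_range])
  have h6 : ‖(1 / ((f * m : ℕ) : ℂ))‖ = 1 / ((f * m : ℕ) : ℝ) := by
    rw [norm_div, norm_one, Complex.norm_natCast]
  rw [h6]
  calc _ ≤ 1 / ((f * m : ℕ) : ℝ) * (((f * m : ℕ) : ℝ) * ((S b D (j + t)).card * g0 b (1 / 2) ^ T)) :=
        mul_le_mul_of_nonneg_left h5 (by positivity)
    _ = _ := by field_simp

end Pool.Agent.U108.PV
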