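import Pool.Agent.U108.PV.B
import Pool.Agent.H373R2.T7.Bonf

set_option autoImplicit false

/-! Systems of residue classes modulo primes. -/

namespace Pool.Agent.U108.PV
open Finset

open Classical in
/-- from the classes of products of primes to systems of classes -/
theorem sys (s : Finset ℕ) (w : ℕ → ℝ) (q₀ : ℕ) (hq₀ : 1 ≤ q₀) (Z : Finset ℕ) (hZ : ∀ p ∈ Z, p.Prime ∧ ¬ p ∣ q₀) (δ : ℝ) (r : ℕ)
    (H : ∀ T ⊆ Z, T.card ≤ r → ∀ c : ℕ, |∑ n ∈ s.filter (fun n => n ≡ c [MOD q₀ * ∏ p ∈ T, p]), w n -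
      (1 / ((∏ p ∈ T, p : ℕ) : ℝ)) * ∑ n ∈ s.filter (fun n => n ≡ c [MOD q₀]), w n| ≤ δ) (A : ℕ → ℕ → Prop) (T : Finset ℕ) (hT : T ⊆ Z) :
    ∀ T' ⊆ Z, Disjoint T T' → T.card + T'.card ≤ r → ∀ c : ℕ,
    |∑ n ∈ s.filter (fun n => n ≡ c [MOD q₀ * ∏ p ∈ T', p] ∧ ∀ p ∈ T, A p (n % p)), w n -
      (1 / ((∏ p ∈ T', p : ℕ) : ℝ)) * (∑ n ∈ s.filter (fun n => n ≡ c [MOD q₀]), w n) *
        ∏ p ∈ T, ((((range p).filter (fun a => A p a)).card : ℝ) / p)| ≤
      δ * ∏ p ∈ T, (((range p).filter (fun a => A p a)).card : ℝ) := by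
  induction T using Finset.induction_on with
  | empty =>
    intro T' hT' _ hr c
    have h := H T' hT' (by simpa using hr) c
    simpa using h
  | insert p T hp ih =>
    intro T' hT' hdis hr c
    have hpZ := hT (mem_insert_self p T)
    have hpp := (hZ p hpZ).1
    have hpT' : p ∉ T' := fun h => (disjoint_left.1 hdis (mem_insert_self p T)) h
    obtain ⟨q, hq⟩ : ∃ q, q = q₀ * ∏ x ∈ T', x := ⟨_, rfl⟩
    have hprodpos : 0 < ∏ x ∈ T', x := prod_pos fun x hx => (hZ x (hT' hx)).1.pos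
    have hqpos : 1 ≤ q := by rw [hq]; exact Nat.mul_pos hq₀ hprodpos
    have hpq : q.Coprime p := by
      rw [Nat.coprime_comm, Nat.Prime.coprime_iff_not_dvd hpp, hq]
      intro hd
      rcases (Nat.Prime.dvd_mul hpp).1 hd with h1 | h1
      · exact (hZ p hpZ).2 h1
      · obtain ⟨x, hx, hpx⟩ := (Prime.dvd_finset_prod_iff hpp.prime _).1 h1
        have := (Nat.prime_dvd_prime_iff_eq hpp (hZ x (hT' hx)).1).1 hpx
        rw [this] at hpT'
        exact hpT' hx
    have hp0 : (0 : ℝ) < p := by exact_mod_cast hpp.pos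
    have hprod' : q * p = q₀ * ∏ x ∈ insert p T', x := by
      rw [hq, prod_insert hpT']
      ring
    obtain ⟨ρ, hρ⟩ : ∃ ρ, ρ = (range p).filter (fun a => A p a) := ⟨_, rfl⟩
    rw [prod_insert hp, prod_insert hp, ← hρ, ← hq]
    have h1 : ∑ n ∈ s.filter (fun n => n ≡ c [MOD q] ∧ ∀ p' ∈ insert p T, A p' (n % p')), w n =
        ∑ a ∈ ρ, ∑ n ∈ s.filter (fun n => n ≡ (Nat.chineseRemainder hpq c a : ℕ) [MOD (q * p)] ∧
          ∀ p' ∈ T, A p' (n % p')), w n := by
      rw [← sum_fiberwise_of_maps_to (s := s.filter (fun n => n ≡ c [MOD q] ∧ ∀ p' ∈ insert p T, A p' (n % p'))) (t := ρ) (g := fun n => n % p)]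
      · apply sum_congr rfl
        intro a ha
        rw [hρ, mem_filter, mem_range] at ha
        apply sum_congr _ (fun _ _ => rfl)
        ext n
        simp only [mem_filter, mem_insert, forall_eq_or_imp]
        have hcr : n ≡ (Nat.chineseRemainder hpq c a : ℕ) [MOD (q * p)] ↔ n ≡ c [MOD q] ∧ n ≡ a [MOD p] := by
          constructor
          · intro h
            have k1 := (Nat.chineseRemainder hpq c a).2.1
            have k2 := (Nat.chineseRemainder hpq c a).2.2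
            exact ⟨(h.of_mul_right p).trans k1, (h.of_mul_left q).trans k2⟩
          · rintro ⟨h1, h2⟩
            exact Nat.chineseRemainder_modEq_unique hpq h1 h2
        have hmod : n ≡ a [MOD p] ↔ n % p = a := by
          unfold Nat.ModEq
          rw [Nat.mod_eq_of_lt ha.1]
        rw [hcr, hmod]
        constructor
        · rintro ⟨⟨h1, h2, h3, h4⟩, h5⟩
          exact ⟨h1, ⟨h2, h5⟩, h4⟩
        · rintro ⟨h1, ⟨h2, h5⟩, h4⟩
          exact ⟨⟨h1, h2, by rw [h5]; exact ha.2, h4⟩, h5⟩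
      · intro n hn
        rw [mem_filter] at hn
        rw [hρ, mem_filter, mem_range]
        exact ⟨Nat.mod_lt _ hpp.pos, hn.2.2 p (mem_insert_self _ _)⟩
    rw [h1]
    obtain ⟨V, hV⟩ : ∃ V : ℝ, V = ∑ n ∈ s.filter (fun n => n ≡ c [MOD q₀]), w n := ⟨_, rfl⟩
    obtain ⟨Pr, hPr⟩ : ∃ Pr : ℝ, Pr = ∏ p' ∈ T, ((((range p').filter (fun a => A p' a)).card : ℝ) / p') := ⟨_, rfl⟩
    rw [← hV, ← hPr]
    have hVa : ∀ a : ℕ, ∑ n ∈ s.filter (fun n => n ≡ (Nat.chineseRemainder hpq c a : ℕ) [MOD q₀]), w n = V := by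
      intro a
      rw [hV]
      apply sum_congr _ (fun _ _ => rfl)
      ext n
      rw [mem_filter, mem_filter]
      have h2 : (Nat.chineseRemainder hpq c a : ℕ) ≡ c [MOD q₀] := by
        have h3 := (Nat.chineseRemainder hpq c a).2.1
        exact h3.of_dvd (by rw [hq]; exact dvd_mul_right _ _)
      constructor
      · rintro ⟨h3, h4⟩
        exact ⟨h3, h4.trans h2⟩
      · rintro ⟨h3, h4⟩
        exact ⟨h3, h4.trans h2.symm⟩
    have h2 : 1 / ((∏ x ∈ T', x : ℕ) : ℝ) * V * ((ρ.card : ℝ) / p * Pr) =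
        ∑ a ∈ ρ, 1 / ((∏ x ∈ insert p T', x : ℕ) : ℝ) * (∑ n ∈ s.filter (fun n => n ≡ (Nat.chineseRemainder hpq c a : ℕ) [MOD q₀]), w n) * Pr := by
      rw [sum_congr rfl (fun a _ => by rw [hVa a]), sum_const, nsmul_eq_mul, prod_insert hpT']
      push_cast
      have h3 : ((∏ x ∈ T', (x : ℝ)) : ℝ) ≠ 0 := by
        apply prod_ne_zero_iff.2
        intro x hx
        exact_mod_cast (hZ x (hT' hx)).1.ne_zero
      field_simp
    rw [h2, ← sum_sub_distrib]
    refine (abs_sum_le_sum_abs _ _).trans ?_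
    have h3 : ∀ a ∈ ρ, |∑ n ∈ s.filter (fun n => n ≡ (Nat.chineseRemainder hpq c a : ℕ) [MOD (q * p)] ∧
          ∀ p' ∈ T, A p' (n % p')), w n - 1 / ((∏ x ∈ insert p T', x : ℕ) : ℝ) *
          (∑ n ∈ s.filter (fun n => n ≡ (Nat.chineseRemainder hpq c a : ℕ) [MOD q₀]), w n) * Pr| ≤
        δ * ∏ p' ∈ T, (((range p').filter (fun a => A p' a)).card : ℝ) := by
      intro a _
      have h4 := ih (fun x hx => hT (mem_insert_of_mem hx)) (insert p T') (by
        intro x hx
        rcases mem_insert.1 hx with rfl | hx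
        · exact hpZ
        · exact hT' hx) (by
        rw [disjoint_insert_right]
        exact ⟨hp, disjoint_of_subset_left (subset_insert p T) hdis⟩) (by
        rw [card_insert_of_notMem hpT']
        rw [card_insert_of_notMem hp] at hr
        omega) (Nat.chineseRemainder hpq c a : ℕ)
      rw [← hprod', ← hPr] at h4
      exact h4
    refine (sum_le_sum h3).trans (le_of_eq ?_)
    rw [sum_const, nsmul_eq_mul]
    ring

end Pool.Agent.U108.PV
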