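import Pool.Agent.U108.PV.C
import Pool.Agent.H373R2.T7.SysCount

set_option autoImplicit false

/-! Sieving integers with restricted digits. -/

namespace Pool.Agent.U108.PV
open Finset
open Pool.Agent.TH872.GQ (S)
open Pool.Agent.TH872.Sq (nn gg gg_nonneg gg_le_one g0 g0_bounds)
open Pool.Agent.H373R2.T7 (pz mem_pz nuB es es_le choice sieve_gen' card_small card_pz_le sum_pz_le nuB_le)

open Classical in
/-- one step of the sieve, with explicit errors -/
theorem sieve_core {b : ℕ} (hb : 2 ≤ b) (j t : ℕ) (D : ℕ → Finset ℕ) (hD : ∀ i < j, D i ⊆ range b ∧ 2 ≤ (D i).card) (w : ℕ → ℝ)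
    (hw : ∀ x, 0 ≤ w x ∧ w x ≤ 1) (z c r L T : ℕ) (hc : 1 ≤ c) (hL : (z + 1) ^ r ≤ b ^ L) (hT : L * T ≤ j)
    (Q : ℕ → ℕ → Prop) (hQ : ∀ p n, Q p n ↔ Q p (n % p)) (hfew : ∀ p, p.Prime → b < p → nuB Q p ≤ c) :
    |∑ n ∈ (S b D (j + t)).filter (fun n => (∀ p ∈ pz b, ¬ Q p n) ∧ ∀ p ∈ (pz z).filter (fun p => b < p), ¬ Q p n), w (n / b ^ j) -
      (∑ n ∈ (S b D (j + t)).filter (fun n => ∀ p ∈ pz b, ¬ Q p n), w (n / b ^ j)) *
        ∏ p ∈ (pz z).filter (fun p => b < p), (1 - (nuB Q p : ℝ) / p)| ≤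
      ((z : ℝ) + 1) ^ r * (b.factorial * ((S b D (j + t)).card * g0 b (1 / 2) ^ T * (c : ℝ) ^ r)) +
        2 * (S b D (j + t)).card * es (fun p => (nuB Q p : ℝ) / p) ((pz z).filter (fun p => b < p)) r := by
  obtain ⟨hg0, hg1⟩ := g0_bounds b hb (1 / 2) (by norm_num) (by norm_num)
  obtain ⟨s, hs⟩ : ∃ s, s = S b D (j + t) := ⟨_, rfl⟩
  obtain ⟨Z, hZ⟩ : ∃ Z, Z = (pz z).filter (fun p => b < p) := ⟨_, rfl⟩
  obtain ⟨δ, hδ⟩ : ∃ δ : ℝ, δ = (s.card : ℝ) * g0 b (1 / 2) ^ T := ⟨_, rfl⟩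
  have hδ0 : 0 ≤ δ := by rw [hδ]; exact mul_nonneg (Nat.cast_nonneg _) (pow_nonneg hg0 _)
  have hZp : ∀ p ∈ Z, p.Prime ∧ ¬ p ∣ b.factorial := by
    intro p hp
    rw [hZ, mem_filter, mem_pz] at hp
    refine ⟨hp.1.2, fun h => ?_⟩
    have := (Nat.Prime.dvd_factorial hp.1.2).1 h
    omega
  have hcr : (1 : ℝ) ≤ c := by exact_mod_cast hc
  have hf1 : 1 ≤ b.factorial := Nat.factorial_pos b
  have hprod : ∀ T' ⊆ Z, T'.card ≤ r → ∏ p ∈ T', p ≤ b ^ L := by
    intro T' hT' hr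
    refine le_trans ?_ hL
    calc ∏ p ∈ T', p ≤ ∏ _p ∈ T', (z + 1) := by
          apply prod_le_prod' 
          intro p hp
          have h1 := hT' hp
          rw [hZ, mem_filter, mem_pz] at h1
          omega
      _ = (z + 1) ^ T'.card := by rw [prod_const]
      _ ≤ (z + 1) ^ r := Nat.pow_le_pow_right (by omega) hr
  have H : ∀ T' ⊆ Z, T'.card ≤ r → ∀ a : ℕ, |∑ n ∈ s.filter (fun n => n ≡ a [MOD b.factorial * ∏ p ∈ T', p]), w (n / b ^ j) -
      (1 / ((∏ p ∈ T', p : ℕ) : ℝ)) * ∑ n ∈ s.filter (fun n => n ≡ a [MOD b.factorial]), w (n / b ^ j)| ≤ δ := by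
    intro T' hT' hr a
    rw [hs, hδ, hs]
    apply equi hb j t D hD w (fun x => by rw [abs_of_nonneg (hw x).1]; exact (hw x).2) (∏ p ∈ T', p) L T
      (prod_pos fun p hp => (hZp p (hT' hp)).1.pos) _ (hprod T' hT' hr) hT a
    apply Nat.Coprime.prod_left
    intro p hp
    have h1 := hT' hp
    rw [hZ, mem_filter, mem_pz] at h1
    rw [Nat.Prime.coprime_iff_not_dvd h1.1.2]
    intro h2
    have := Nat.le_of_dvd (by omega) h2
    omega
  have Hs := sys s (fun n => w (n / b ^ j)) b.factorial hf1 Z hZp δ r H Q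
  rw [← hs, ← hZ]
  -- the first sieve
  obtain ⟨s', hs'⟩ : ∃ s', s' = s.filter (fun n => ∀ p ∈ pz b, ¬ Q p n) := ⟨_, rfl⟩
  have hmod : ∀ n a : ℕ, n ≡ a [MOD b.factorial] → ∀ p ∈ pz b, (Q p n ↔ Q p a) := by
    intro n a hna p hp
    rw [mem_pz] at hp
    have h1 : p ∣ b.factorial := (Nat.Prime.dvd_factorial hp.2).2 hp.1
    have h2 : n ≡ a [MOD p] := hna.of_dvd h1
    rw [hQ p n, hQ p a, h2]
  have hRR : ∀ T' ⊆ Z, T'.card ≤ r → |∑ n ∈ s'.filter (fun n => ∀ p ∈ T', Q p n), w (n / b ^ j) -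
      (∑ n ∈ s', w (n / b ^ j)) * ∏ p ∈ T', ((nuB Q p : ℝ) / p)| ≤ b.factorial * (δ * (c : ℝ) ^ r) := by
    intro T' hT' hr
    obtain ⟨G, hG⟩ : ∃ G, G = (range b.factorial).filter (fun a => ∀ p ∈ pz b, ¬ Q p a) := ⟨_, rfl⟩
    have h1 : ∀ (P : ℕ → Prop) [DecidablePred P], ∑ n ∈ s'.filter P, w (n / b ^ j) =
        ∑ a ∈ G, ∑ n ∈ s.filter (fun n => n ≡ a [MOD b.factorial] ∧ P n), w (n / b ^ j) := by
      intro P _
      rw [← sum_fiberwise_of_maps_to (s := s'.filter P) (t := G) (g := fun n => n % b.factorial)]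
      · apply sum_congr rfl
        intro a ha
        rw [hG, mem_filter, mem_range] at ha
        apply sum_congr _ (fun _ _ => rfl)
        ext n
        simp only [mem_filter]
        rw [hs']
        simp only [mem_filter]
        have h2 : n % b.factorial = a ↔ n ≡ a [MOD b.factorial] := by
          unfold Nat.ModEq
          rw [Nat.mod_eq_of_lt ha.1]
        rw [h2]
        constructor
        · rintro ⟨⟨⟨h3, h4⟩, h5⟩, h6⟩
          exact ⟨h3, h6, h5⟩
        · rintro ⟨h3, h6, h5⟩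
          exact ⟨⟨⟨h3, fun p hp h7 => ha.2 p hp ((hmod n a h6 p hp).1 h7)⟩, h5⟩, h6⟩
      · intro n hn
        rw [mem_filter, hs', mem_filter] at hn
        rw [hG, mem_filter, mem_range]
        refine ⟨Nat.mod_lt _ (by omega), fun p hp h7 => hn.1.2 p hp ?_⟩
        exact (hmod n (n % b.factorial) (Nat.mod_modEq _ _).symm p hp).2 h7
    have h2 : ∑ n ∈ s', w (n / b ^ j) = ∑ a ∈ G, ∑ n ∈ s.filter (fun n => n ≡ a [MOD b.factorial]), w (n / b ^ j) := by
      have h3 := h1 (fun _ => True)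
      rw [filter_true] at h3
      rw [h3]
      refine sum_congr rfl fun a _ => ?_
      apply sum_congr _ (fun _ _ => rfl)
      ext n
      simp
    rw [h1 (fun n => ∀ p ∈ T', Q p n), h2, sum_mul, ← sum_sub_distrib]
    refine (abs_sum_le_sum_abs _ _).trans ?_
    have hnu : ∏ p ∈ T', (((range p).filter (fun a => Q p a)).card : ℝ) ≤ (c : ℝ) ^ r := by
      calc ∏ p ∈ T', (((range p).filter (fun a => Q p a)).card : ℝ) ≤ ∏ _p ∈ T', (c : ℝ) := by
            apply prod_le_prod (fun _ _ => Nat.cast_nonneg _)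
            intro p hp
            have h3 := hT' hp
            rw [hZ, mem_filter, mem_pz] at h3
            have := hfew p h3.1.2 h3.2
            unfold nuB at this
            exact_mod_cast this
        _ = (c : ℝ) ^ T'.card := by rw [prod_const]
        _ ≤ (c : ℝ) ^ r := pow_le_pow_right₀ hcr hr
    have h3 : ∀ a ∈ G, |∑ n ∈ s.filter (fun n => n ≡ a [MOD b.factorial] ∧ ∀ p ∈ T', Q p n), w (n / b ^ j) -
        (∑ n ∈ s.filter (fun n => n ≡ a [MOD b.factorial]), w (n / b ^ j)) * ∏ p ∈ T', ((nuB Q p : ℝ) / p)| ≤ δ * (c : ℝ) ^ r := by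
      intro a _
      have h4 := Hs T' hT' ∅ (empty_subset _) (disjoint_empty_right _) (by simpa using hr) a
      simp only [prod_empty, mul_one, Nat.cast_one, div_one, one_mul] at h4
      have e1 : s.filter (fun n => n ≡ a [MOD b.factorial] ∧ ∀ p ∈ T', Q p (n % p)) =
          s.filter (fun n => n ≡ a [MOD b.factorial] ∧ ∀ p ∈ T', Q p n) := by
        apply filter_congr
        intro n _
        constructor
        · rintro ⟨h5, h6⟩
          exact ⟨h5, fun p hp => (hQ p n).2 (h6 p hp)⟩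
        · rintro ⟨h5, h6⟩
          exact ⟨h5, fun p hp => (hQ p n).1 (h6 p hp)⟩
      rw [e1] at h4
      refine (le_of_eq ?_).trans (h4.trans (mul_le_mul_of_nonneg_left hnu hδ0))
      rfl
    refine (sum_le_sum h3).trans ?_
    rw [sum_const, nsmul_eq_mul]
    apply mul_le_mul_of_nonneg_right _ (by positivity)
    rw [hG]
    exact_mod_cast (card_filter_le _ _).trans (by rw [card_range])
  have hX0 : 0 ≤ ∑ n ∈ s', w (n / b ^ j) := sum_nonneg fun n _ => (hw _).1
  have hXs : ∑ n ∈ s', w (n / b ^ j) ≤ s.card := by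
    calc ∑ n ∈ s', w (n / b ^ j) ≤ ∑ _n ∈ s', (1 : ℝ) := sum_le_sum fun n _ => (hw _).2
      _ = s'.card := by rw [sum_const, nsmul_eq_mul, mul_one]
      _ ≤ s.card := by rw [hs']; exact_mod_cast card_filter_le _ _
  have key := sieve_gen' s' (fun n => w (n / b ^ j)) (fun n _ => (hw _).1) (fun p n => Q p n) Z
    (fun p => (nuB Q p : ℝ) / p) (fun p hp => by
      have hp0 : (0 : ℝ) < p := by exact_mod_cast (hZp p hp).1.pos
      constructor
      · positivity
      · rw [div_le_one hp0]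
        exact_mod_cast nuB_le Q p) (∑ n ∈ s', w (n / b ^ j)) hX0 (fun _ => b.factorial * (δ * (c : ℝ) ^ r)) r hRR
  have e0 : s.filter (fun n => (∀ p ∈ pz b, ¬ Q p n) ∧ ∀ p ∈ Z, ¬ Q p n) = s'.filter (fun n => ∀ p ∈ Z, ¬ Q p n) := by
    rw [hs', filter_filter]
  rw [e0, ← hs']
  refine key.trans (add_le_add ?_ ?_)
  · have e1 : ∑ i ∈ range (r + 1), ∑ _S ∈ Z.powersetCard i, (b.factorial * (δ * (c : ℝ) ^ r)) =
        ((∑ i ∈ range (r + 1), (Z.powersetCard i).card : ℕ) : ℝ) * (b.factorial * (δ * (c : ℝ) ^ r)) := by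
      push_cast
      rw [sum_mul]
      apply sum_congr rfl
      intro i _
      rw [sum_const, nsmul_eq_mul]
    rw [e1, hδ]
    have h3 : (Z.card : ℝ) ≤ z := by
      have h4 : Z.card ≤ (pz z).card := by rw [hZ]; exact card_filter_le _ _
      exact_mod_cast h4.trans (card_pz_le z)
    have h5 : ((Z.card : ℝ) + 1) ^ r ≤ ((z : ℝ) + 1) ^ r :=
      pow_le_pow_left₀ (add_nonneg (Nat.cast_nonneg _) zero_le_one) (add_le_add h3 le_rfl) r
    apply mul_le_mul_of_nonneg_right ((card_small Z r).trans h5)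
    exact mul_nonneg (Nat.cast_nonneg _) (mul_nonneg (mul_nonneg (Nat.cast_nonneg _) (pow_nonneg hg0 _)) (pow_nonneg (Nat.cast_nonneg _) _))
  · have hes : 0 ≤ es (fun p => (nuB Q p : ℝ) / p) Z r := by
      unfold es
      apply sum_nonneg
      intro T' _
      apply prod_nonneg
      intro p _
      positivity
    apply mul_le_mul_of_nonneg_right _ hes
    linarith

end Pool.Agent.U108.PV
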