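import Pool.Agent.U108.PV.D

set_option autoImplicit false

/-! Sieving integers with restricted digits: the asymptotic formula. -/

namespace Pool.Agent.U108.PV
open Finset
open Pool.Agent.TH872.GQ (S)
open Pool.Agent.TH872.Sq (g0 g0_bounds)
open Pool.Agent.H373R2.T7 (pz mem_pz nuB es es_le choice sum_pz_le nuB_le)

lemma poly_exp (ρ : ℝ) (hρ0 : 0 ≤ ρ) (hρ1 : ρ < 1) (K : ℝ) (m : ℕ) : ∃ u₀ : ℕ, ∀ u : ℕ, u₀ ≤ u → K * ((u : ℝ) + 1) ^ m * ρ ^ (2 * u) ≤ 1 := by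
  have h1 := tendsto_pow_const_mul_const_pow_of_abs_lt_one m (show |ρ| < 1 by rw [abs_of_nonneg hρ0]; exact hρ1)
  have h2 := h1.const_mul (|K|)
  rw [mul_zero] at h2
  obtain ⟨u₀, h3⟩ := Filter.eventually_atTop.1 (h2.eventually_le_const (show (0 : ℝ) < 1 by norm_num))
  refine ⟨u₀ + 1, fun u hu => ?_⟩
  have h4 := h3 (u + 1) (by omega)
  push_cast at h4
  have h5 : ρ ^ (2 * u) ≤ ρ ^ (u + 1) := pow_le_pow_of_le_one hρ0 hρ1.le (by omega)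
  calc K * ((u : ℝ) + 1) ^ m * ρ ^ (2 * u) ≤ |K| * ((u : ℝ) + 1) ^ m * ρ ^ (2 * u) := by
        apply mul_le_mul_of_nonneg_right _ (pow_nonneg hρ0 _)
        exact mul_le_mul_of_nonneg_right (le_abs_self K) (by positivity)
    _ ≤ |K| * ((u : ℝ) + 1) ^ m * ρ ^ (u + 1) := mul_le_mul_of_nonneg_left h5 (by positivity)
    _ = |K| * (((u : ℝ) + 1) ^ m * ρ ^ (u + 1)) := by ring
    _ ≤ 1 := h4

open Classical in
theorem sieve_S (b c E U : ℕ) (hb : 2 ≤ b) (hc : 1 ≤ c) : ∃ k₀ : ℕ, ∀ k : ℕ, k₀ ≤ k → ∀ D : ℕ → Finset ℕ,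
    (∀ i < k, D i ⊆ range b ∧ 2 ≤ (D i).card) → ∀ j : ℕ, j ≤ k → k ≤ 2 * j → ∀ w : ℕ → ℝ, (∀ x, 0 ≤ w x ∧ w x ≤ 1) →
    ∀ z : ℕ, 1 ≤ z → (z : ℝ) ≤ (k : ℝ) ^ E → ∀ Q : ℕ → ℕ → Prop, (∀ p n, Q p n ↔ Q p (n % p)) →
    (∀ p, p.Prime → b < p → nuB Q p ≤ c) →
    |∑ n ∈ (S b D k).filter (fun n => (∀ p ∈ pz b, ¬ Q p n) ∧ ∀ p ∈ (pz z).filter (fun p => b < p), ¬ Q p n), w (n / b ^ j) -
      (∑ n ∈ (S b D k).filter (fun n => ∀ p ∈ pz b, ¬ Q p n), w (n / b ^ j)) *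
        ∏ p ∈ (pz z).filter (fun p => b < p), (1 - (nuB Q p : ℝ) / p)| ≤ (S b D k).card / (k : ℝ) ^ U := by
  obtain ⟨hg0, hg1⟩ := g0_bounds b hb (1 / 2) (by norm_num) (by norm_num)
  obtain ⟨ρ, hρ⟩ : ∃ ρ : ℝ, ρ = max (g0 b (1 / 2)) (1 / 2) := ⟨_, rfl⟩
  have hρ0 : 0 < ρ := by rw [hρ]; exact lt_of_lt_of_le (by norm_num) (le_max_right _ _)
  have hρ1 : ρ < 1 := by rw [hρ]; exact max_lt hg1 (by norm_num)
  have hgρ : g0 b (1 / 2) ≤ ρ := by rw [hρ]; exact le_max_left _ _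
  have hρi : 1 < ρ⁻¹ := (one_lt_inv₀ hρ0).2 hρ1
  obtain ⟨M, hM⟩ : ∃ M : ℕ, (2 : ℝ) ^ 8 ≤ ρ⁻¹ ^ M := by
    obtain ⟨M, hM⟩ := pow_unbounded_of_one_lt ((2 : ℝ) ^ 8) hρi
    exact ⟨M, hM.le⟩
  have hM1 : M ≠ 0 := by
    rintro rfl
    norm_num at hM
  obtain ⟨U', hU'⟩ : ∃ U', U' = 3 * U + 1 := ⟨_, rfl⟩
  obtain ⟨E', hE'⟩ : ∃ E', E' = 3 * E := ⟨_, rfl⟩
  obtain ⟨N₀, hch⟩ := choice c E' U' M
  obtain ⟨C', hC'⟩ : ∃ C', C' = (3 * (c * (1 + E')) + U' + 1) * c := ⟨_, rfl⟩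
  obtain ⟨u₀, hu₀⟩ := poly_exp ρ hρ0.le hρ1 (b.factorial * 2 * 8 ^ C' * 64 ^ U) (C' + 2 * U)
  refine ⟨(8 * (u₀ + N₀ + 10)) ^ 2, fun k hk D hD j hjk hkj w hw z hz1 hz Q hQ hfew => ?_⟩
  obtain ⟨u, hu⟩ : ∃ u, u = Nat.sqrt k / 8 := ⟨_, rfl⟩
  have hsq1 : 8 * (u₀ + N₀ + 10) ≤ Nat.sqrt k := by
    rw [Nat.le_sqrt']
    exact hk
  have hu1 : u₀ + N₀ + 10 ≤ u := by omega
  have h8u : 8 * u ≤ Nat.sqrt k := by omega
  have h8u2 : (8 * u) ^ 2 ≤ k := (Nat.pow_le_pow_left h8u 2).trans (Nat.sqrt_le' k)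
  have hk64 : k ≤ (8 * (u + 1)) ^ 2 := by
    have h1 := Nat.lt_succ_sqrt' k
    have h2 : (Nat.sqrt k).succ ≤ 8 * (u + 1) := by rw [Nat.succ_eq_add_one]; omega
    exact h1.le.trans (Nat.pow_le_pow_left h2 2)
  have hk1 : 1 ≤ k := le_trans (Nat.one_le_pow _ _ (by omega)) h8u2
  have hu0r : (10 : ℝ) ≤ u := by exact_mod_cast (by omega : 10 ≤ u)
  obtain ⟨Nh, hNh⟩ : ∃ Nh, Nh = 2 ^ (8 * u) := ⟨_, rfl⟩
  have hNhN : N₀ ≤ Nh := by
    rw [hNh]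
    calc N₀ ≤ 8 * u := by omega
      _ ≤ 2 ^ (8 * u) := Nat.lt_two_pow_self.le
  have hlog : Real.log (Nh : ℝ) = 8 * u * Real.log 2 := by
    rw [hNh]
    push_cast
    rw [Real.log_pow]
    push_cast
    ring
  have hl2 : (0.69 : ℝ) < Real.log 2 := by have := Real.log_two_gt_d9; linarith
  have hl2' : Real.log 2 < 1 := by have := Real.log_two_lt_d9; linarith
  obtain ⟨l, hl⟩ : ∃ l, l = Real.log (Nh : ℝ) := ⟨_, rfl⟩
  have hll : 5.5 * (u : ℝ) ≤ l := by rw [hl, hlog]; nlinarith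
  have hlu : l ≤ 8 * (u + 1) := by rw [hl, hlog]; nlinarith
  have hl4 : 4 ≤ l := by linarith
  have hkr : (k : ℝ) ≤ (8 * ((u : ℝ) + 1)) ^ 2 := by exact_mod_cast hk64
  have hkl : (k : ℝ) ≤ l ^ 3 := by
    refine hkr.trans ?_
    have h1 : (8 * ((u : ℝ) + 1)) ^ 2 ≤ (5.5 * (u : ℝ)) ^ 3 := by nlinarith [mul_nonneg (by linarith : (0 : ℝ) ≤ (u : ℝ) - 10) (by positivity : (0 : ℝ) ≤ (u : ℝ) ^ 2)]
    exact h1.trans (pow_le_pow_left₀ (by positivity) hll 3)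
  have hk0 : (0 : ℝ) < k := by exact_mod_cast hk1
  have hzE : (z : ℝ) ≤ Real.log (Nh : ℝ) ^ E' := by
    rw [← hl, hE', pow_mul]
    exact hz.trans (pow_le_pow_left₀ hk0.le hkl E)
  obtain ⟨r, hr1, hr2, hr3⟩ := hch Nh hNhN z hzE
  have hr3c := hr3 c
  rw [← hC', ← hl] at hr3c
  rw [← hl] at hr1
  have hNhr : (Nh : ℝ) = 2 ^ (8 * u) := by rw [hNh]; push_cast; rfl
  have hz1r : (1 : ℝ) ≤ (z : ℝ) + 1 := by have : (0 : ℝ) ≤ z := Nat.cast_nonneg _; linarith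
  have hzr1 : (1 : ℝ) ≤ ((z : ℝ) + 1) ^ r := one_le_pow₀ hz1r
  have hzL : (z + 1) ^ r ≤ b ^ (8 * u) := by
    have h1 : ((z : ℝ) + 1) ^ r ≤ (((z : ℝ) + 1) ^ r) ^ M := le_self_pow₀ hzr1 hM1
    have h2 : ((z : ℝ) + 1) ^ r ≤ 2 ^ (8 * u) := by rw [← hNhr]; exact h1.trans hr2
    have h3 : (z + 1) ^ r ≤ 2 ^ (8 * u) := by exact_mod_cast h2
    exact h3.trans (Nat.pow_le_pow_left hb _)
  have hLT : 8 * u * (3 * u) ≤ j := by
    have : 8 * u * (3 * u) = 24 * u ^ 2 := by ring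
    have h2 : (8 * u) ^ 2 = 64 * u ^ 2 := by ring
    omega
  obtain ⟨t, ht⟩ : ∃ t, k = j + t := ⟨k - j, by omega⟩
  have hcore := sieve_core hb j t D (fun i hi => hD i (by omega)) w hw z c r (8 * u) (3 * u) hc hzL hLT Q hQ hfew
  rw [← ht] at hcore
  refine hcore.trans ?_
  obtain ⟨Y, hY⟩ : ∃ Y : ℝ, Y = (S b D k).card := ⟨_, rfl⟩
  have hY0 : 0 ≤ Y := by rw [hY]; exact Nat.cast_nonneg _
  rw [← hY]
  -- second term
  have hes : es (fun p => (nuB Q p : ℝ) / p) ((pz z).filter (fun p => b < p)) r ≤ 1 / l ^ U' := by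
    refine (es_le (fun p _ => div_nonneg (Nat.cast_nonneg _) (Nat.cast_nonneg _)) r).trans (le_trans ?_ hr1)
    apply Real.exp_le_exp.2
    have h6 : ∑ p ∈ (pz z).filter (fun p => b < p), (nuB Q p : ℝ) / p ≤ c * (1 + Real.log z) := by
      have h7 : ∀ p ∈ (pz z).filter (fun p => b < p), (nuB Q p : ℝ) / p ≤ c * (1 / (p : ℝ)) := by
        intro p hp
        rw [mem_filter, mem_pz] at hp
        rw [mul_one_div]
        apply div_le_div_of_nonneg_right _ (Nat.cast_nonneg _)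
        exact_mod_cast hfew p hp.1.2 hp.2
      refine (sum_le_sum h7).trans ?_
      rw [← mul_sum]
      apply mul_le_mul_of_nonneg_left _ (Nat.cast_nonneg _)
      refine le_trans ?_ (sum_pz_le z)
      exact sum_le_sum_of_subset_of_nonneg (filter_subset _ _) (fun _ _ _ => by positivity)
    linarith
  have hkU : (0 : ℝ) < (k : ℝ) ^ U := by positivity
  have g2 : 2 * Y * es (fun p => (nuB Q p : ℝ) / p) ((pz z).filter (fun p => b < p)) r ≤ (1 / 2) * (Y / (k : ℝ) ^ U) := by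
    calc 2 * Y * es (fun p => (nuB Q p : ℝ) / p) ((pz z).filter (fun p => b < p)) r ≤ 2 * Y * (1 / l ^ U') :=
          mul_le_mul_of_nonneg_left hes (by positivity)
      _ = Y * (2 / l ^ U') := by ring
      _ ≤ Y * (1 / (2 * (k : ℝ) ^ U)) := by
          apply mul_le_mul_of_nonneg_left _ hY0
          rw [div_le_div_iff₀ (by positivity) (by positivity), hU', pow_succ, pow_mul]
          have h1 : (k : ℝ) ^ U ≤ (l ^ 3) ^ U := pow_le_pow_left₀ hk0.le hkl U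
          have h2 : (0 : ℝ) ≤ (l ^ 3) ^ U := by positivity
          nlinarith
      _ = _ := by field_simp
  -- first term
  have g1 : ((z : ℝ) + 1) ^ r * (b.factorial * (Y * g0 b (1 / 2) ^ (3 * u) * (c : ℝ) ^ r)) ≤ (1 / 2) * (Y / (k : ℝ) ^ U) := by
    have h1 : ((z : ℝ) + 1) ^ r ≤ ρ⁻¹ ^ u := by
      have h2 : (((z : ℝ) + 1) ^ r) ^ M ≤ (ρ⁻¹ ^ u) ^ M := by
        calc (((z : ℝ) + 1) ^ r) ^ M ≤ 2 ^ (8 * u) := by rw [← hNhr]; exact hr2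
          _ = ((2 : ℝ) ^ 8) ^ u := by rw [pow_mul]
          _ ≤ (ρ⁻¹ ^ M) ^ u := pow_le_pow_left₀ (by positivity) hM u
          _ = (ρ⁻¹ ^ u) ^ M := by rw [← pow_mul, ← pow_mul, mul_comm]
      exact (pow_le_pow_iff_left₀ (by positivity) (by positivity) hM1).1 h2
    have h2 : g0 b (1 / 2) ^ (3 * u) ≤ ρ ^ (3 * u) := pow_le_pow_left₀ hg0 hgρ _
    have h3 : (c : ℝ) ^ r ≤ (8 * ((u : ℝ) + 1)) ^ C' := hr3c.trans (pow_le_pow_left₀ (by linarith) hlu _)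
    have h4 : (k : ℝ) ^ U ≤ ((8 * ((u : ℝ) + 1)) ^ 2) ^ U := pow_le_pow_left₀ hk0.le hkr U
    have h5 := hu₀ u (by omega)
    have e1 : ρ⁻¹ ^ u * ρ ^ (3 * u) = ρ ^ (2 * u) := by
      rw [show 3 * u = u + 2 * u by ring, pow_add, ← mul_assoc, ← mul_pow, inv_mul_cancel₀ hρ0.ne', one_pow, one_mul]
    have h6 : ((z : ℝ) + 1) ^ r * (b.factorial * (Y * g0 b (1 / 2) ^ (3 * u) * (c : ℝ) ^ r)) ≤
        Y * (b.factorial * (8 * ((u : ℝ) + 1)) ^ C' * ρ ^ (2 * u)) := by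
      calc ((z : ℝ) + 1) ^ r * (b.factorial * (Y * g0 b (1 / 2) ^ (3 * u) * (c : ℝ) ^ r))
          ≤ ρ⁻¹ ^ u * (b.factorial * (Y * ρ ^ (3 * u) * (8 * ((u : ℝ) + 1)) ^ C')) := by
            apply mul_le_mul h1 _ _ (by positivity)
            · apply mul_le_mul_of_nonneg_left _ (Nat.cast_nonneg _)
              apply mul_le_mul _ h3 (by positivity) (by positivity)
              exact mul_le_mul_of_nonneg_left h2 hY0
            · exact mul_nonneg (Nat.cast_nonneg _) (mul_nonneg (mul_nonneg hY0 (pow_nonneg hg0 _)) (by positivity))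
        _ = Y * (b.factorial * (8 * ((u : ℝ) + 1)) ^ C' * (ρ⁻¹ ^ u * ρ ^ (3 * u))) := by ring
        _ = _ := by rw [e1]
    refine h6.trans ?_
    have h7 : b.factorial * (8 * ((u : ℝ) + 1)) ^ C' * ρ ^ (2 * u) * (2 * (k : ℝ) ^ U) ≤ 1 := by
      calc b.factorial * (8 * ((u : ℝ) + 1)) ^ C' * ρ ^ (2 * u) * (2 * (k : ℝ) ^ U)
          ≤ b.factorial * (8 * ((u : ℝ) + 1)) ^ C' * ρ ^ (2 * u) * (2 * ((8 * ((u : ℝ) + 1)) ^ 2) ^ U) := by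
            apply mul_le_mul_of_nonneg_left _ (by positivity)
            linarith
        _ = b.factorial * 2 * 8 ^ C' * 64 ^ U * ((u : ℝ) + 1) ^ (C' + 2 * U) * ρ ^ (2 * u) := by
            have e2 : ((8 * ((u : ℝ) + 1)) ^ 2) ^ U = 64 ^ U * ((u : ℝ) + 1) ^ (2 * U) := by
              rw [mul_pow, mul_pow, ← pow_mul, ← pow_mul]
              congr 1
              rw [pow_mul]
              norm_num
            rw [e2, mul_pow, pow_add]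
            ring
        _ ≤ 1 := h5
    have h8 : b.factorial * (8 * ((u : ℝ) + 1)) ^ C' * ρ ^ (2 * u) ≤ 1 / (2 * (k : ℝ) ^ U) := by
      rw [le_div_iff₀ (by positivity)]
      exact h7
    calc Y * (b.factorial * (8 * ((u : ℝ) + 1)) ^ C' * ρ ^ (2 * u)) ≤ Y * (1 / (2 * (k : ℝ) ^ U)) :=
          mul_le_mul_of_nonneg_left h8 hY0
      _ = _ := by field_simp
  linarith

end Pool.Agent.U108.PV
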