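import Pool.Agent.TH212.EH.A2
import Pool.Agent.R460.SQ.Main

set_option autoImplicit false

/-! Primes among the integers `v i + n` of a thin family, for almost all `n`. -/

namespace Pool.Agent.U108.PV
open Finset
open Pool.Agent.TH212.EH (En S1 S2 maxi large dI_le)
open Pool.Agent.W93.AU (dI)
open Pool.Agent.H373R2.T7 (lamI lamzI lamz Vz pz mem_pz Vz_inv_small lamz_nonneg ev_log' ev_L')
open Pool.Agent.R460.SQ (thp ppw vm_split ppw_nn sum_ppw)

lemma En_neg (p : ℕ) {ι : Type} [Fintype ι] (v : ι → ℤ) : En p (fun i => -v i) = En p v := by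
  unfold En
  congr 1
  simp only [sum_neg_distrib, neg_inj]

/-- duality -/
lemma dual_one {ι : Type} [Fintype ι] (v : ι → ℤ) (z A : ℕ) (X Y : ℝ) (hY : 0 ≤ Y) (c : ι → ℝ) (hc : ∀ i, |c i| ≤ Y)
    (h : ∀ G : ℕ → ℝ, (∀ n, |G n| ≤ 1) → ∑ i, |S1 G z A (v i)| ≤ X ∧ ∑ i, |S2 G z A (v i)| ≤ X) :
    ∑ m ∈ Icc 1 A, |∑ i, c i * dI z ((m : ℤ) + v i)| ≤ Y * X ∧ ∑ m ∈ Icc 1 A, |∑ i, c i * dI z (v i - (m : ℤ))| ≤ Y * X := by
  have key : ∀ F : ℕ → ι → ℝ, (∀ G : ℕ → ℝ, (∀ n, |G n| ≤ 1) → ∑ i, |∑ n ∈ Icc 1 A, G n * F n i| ≤ X) →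
      ∑ m ∈ Icc 1 A, |∑ i, c i * F m i| ≤ Y * X := by
    intro F hF
    obtain ⟨G, hG⟩ : ∃ G : ℕ → ℝ, G = fun m => if 0 ≤ ∑ i, c i * F m i then 1 else -1 := ⟨_, rfl⟩
    have h1 : ∀ m, |G m| ≤ 1 := by
      intro m
      rw [hG]
      simp only
      split_ifs <;> norm_num
    have h2 : ∀ m, |∑ i, c i * F m i| = G m * ∑ i, c i * F m i := by
      intro m
      rw [hG]
      simp only
      split_ifs with h3
      · rw [abs_of_nonneg h3, one_mul]
      · push Not at h3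
        rw [abs_of_neg h3]
        ring
    calc ∑ m ∈ Icc 1 A, |∑ i, c i * F m i| = ∑ m ∈ Icc 1 A, ∑ i, c i * (G m * F m i) := by
          refine sum_congr rfl fun m _ => ?_
          rw [h2 m, mul_sum]
          exact sum_congr rfl fun i _ => by ring
      _ = ∑ i, c i * ∑ m ∈ Icc 1 A, G m * F m i := by
          rw [sum_comm]
          exact sum_congr rfl fun i _ => by rw [mul_sum]
      _ ≤ ∑ i, Y * |∑ m ∈ Icc 1 A, G m * F m i| := by
          refine sum_le_sum fun i _ => ?_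
          refine (le_abs_self _).trans ?_
          rw [abs_mul]
          exact mul_le_mul_of_nonneg_right (hc i) (abs_nonneg _)
      _ = Y * ∑ i, |∑ m ∈ Icc 1 A, G m * F m i| := by rw [mul_sum]
      _ ≤ Y * X := mul_le_mul_of_nonneg_left (hF G h1) hY
  exact ⟨key (fun m i => dI z ((m : ℤ) + v i)) (fun G hG => (h G hG).1),
    key (fun m i => dI z (v i - (m : ℤ))) (fun G hG => (h G hG).2)⟩

lemma sum_Icc_neg (A : ℕ) (f : ℤ → ℝ) : ∑ n ∈ Icc (-(A : ℤ)) A, f n =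
    f 0 + ∑ m ∈ Icc 1 A, f (m : ℤ) + ∑ m ∈ Icc 1 A, f (-(m : ℤ)) := by
  induction A with
  | zero => simp
  | succ A ih =>
    have h1 : Icc (-((A + 1 : ℕ) : ℤ)) ((A + 1 : ℕ) : ℤ) = insert (-((A + 1 : ℕ) : ℤ)) (insert ((A + 1 : ℕ) : ℤ) (Icc (-(A : ℤ)) A)) := by
      ext n
      simp only [mem_Icc, mem_insert]
      push_cast
      omega
    rw [h1, sum_insert, sum_insert, ih, sum_Icc_succ_top (by omega), sum_Icc_succ_top (by omega)]
    · ring
    · simp
    · simp only [mem_insert, mem_Icc]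
      push_cast
      omega

lemma dI_pair (z : ℕ) (hz : 2 ≤ z) (m : ℤ) : dI z m + dI z (-m) = thp m.natAbs + ppw m.natAbs - lamz z m.natAbs := by
  have h0 : lamz z 0 = 0 := by
    unfold lamz
    rw [if_neg]
    push Not
    exact ⟨2, mem_pz.2 ⟨hz, Nat.prime_two⟩, dvd_zero 2⟩
  have hv0 : ArithmeticFunction.vonMangoldt 0 = 0 := by simp
  rw [← vm_split]
  unfold dI lamI lamzI
  rcases lt_trichotomy m 0 with h | h | h
  · rw [if_neg (by omega), if_neg (by omega), if_pos (by omega), if_pos (by omega)]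
    have : (-m).toNat = m.natAbs := by omega
    rw [this]
    ring
  · subst h
    simp [h0]
  · rw [if_pos (by omega), if_pos (by omega), if_neg (by omega), if_neg (by omega)]
    have : m.toNat = m.natAbs := by omega
    rw [this]
    ring

/-- the prime powers -/
lemma ppw_avg (M A : ℕ) (x : ℤ) (hx : |x| ≤ M) (hMA : 1 ≤ M + A) :
    ∑ n ∈ Icc (-(A : ℤ)) A, ppw (x + n).natAbs ≤ 2 * (2 * Real.sqrt (M + A : ℕ) * Real.log (M + A : ℕ)) := by
  have h0 : ppw 0 = 0 := by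
    unfold ppw
    rw [if_neg Nat.not_prime_zero]
    simp
  have h1 : ∑ n ∈ Icc (-(A : ℤ)) A, ppw (x + n).natAbs ≤ ∑ m ∈ Icc (-((M + A : ℕ) : ℤ)) ((M + A : ℕ) : ℤ), ppw m.natAbs := by
    have hx' := abs_le.1 hx
    have e0 : ∑ n ∈ Icc (-(A : ℤ)) A, ppw (x + n).natAbs = ∑ m ∈ (Icc (-(A : ℤ)) A).map (addLeftEmbedding x), ppw m.natAbs := by
      rw [sum_map]
      exact sum_congr rfl fun n _ => by rw [addLeftEmbedding_apply]
    rw [e0]
    apply sum_le_sum_of_subset_of_nonneg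
    · intro m hm
      rw [mem_map] at hm
      obtain ⟨n, hn, rfl⟩ := hm
      rw [mem_Icc] at hn ⊢
      simp only [addLeftEmbedding_apply]
      push_cast
      constructor
      · linarith [hx'.1, hn.1]
      · linarith [hx'.2, hn.2]
    · intro m _ _
      exact ppw_nn _
  refine h1.trans ?_
  rw [sum_Icc_neg]
  simp only [Int.natAbs_zero, Int.natAbs_natCast, Int.natAbs_neg, h0]
  have h2 := sum_ppw hMA
  linarith

open Classical in
/-- **Primes on average over the translations of a thin family.** -/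
theorem dual (p B C U T : ℕ) (hB : 1 ≤ B) : ∃ B0 : ℕ, ∀ E : ℕ, ∃ N0 : ℕ, ∀ N : ℕ, N0 ≤ N → ∀ (ι : Type) [Fintype ι] (v : ι → ℤ),
    (∀ i, |v i| ≤ B * N) → (En p v : ℝ) * N ≤ Real.log N ^ C * (Fintype.card ι : ℝ) ^ (2 * p) →
    ∀ z : ℕ, Real.log N ^ B0 ≤ z → (z : ℝ) ≤ Real.log N ^ E →
    ∀ c : ι → ℝ, (∀ i, |c i| ≤ Real.log N ^ T) →
    ∑ n ∈ Icc (-((B * N : ℕ) : ℤ)) ((B * N : ℕ) : ℤ), |∑ i, c i * (thp (v i + n).natAbs - lamz z (v i + n).natAbs)| ≤
      N * Fintype.card ι / Real.log N ^ U := by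
  obtain ⟨B0, h0⟩ := maxi p B C 0 (T + U + 3)
  refine ⟨B0 + 1, fun E => ?_⟩
  obtain ⟨n0, h1⟩ := h0 E
  obtain ⟨n1, h2⟩ := large (8 * (B + 2) + 20) (n0 + B + 3)
  obtain ⟨n2, h3⟩ := Vz_inv_small E
  obtain ⟨n3, h4⟩ := ev_log' (T + U + 8) 1
  refine ⟨n1 + n2 + n3 + 3, fun N hN ι _ v hv hE z hz1 hz2 c hc => ?_⟩
  obtain ⟨hNn, hLbig, hL1⟩ := h2 N (by omega)
  obtain ⟨L, hL⟩ : ∃ L, L = Real.log (N : ℝ) := ⟨_, rfl⟩
  have h4' := h4 N (by omega)
  rw [← hL] at hLbig hL1 h4'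
  have hN0 : (0 : ℝ) < N := by exact_mod_cast (by omega : 0 < N)
  have hL0 : 0 < L := by linarith
  have hBr : (1 : ℝ) ≤ B := by exact_mod_cast hB
  have hzr : (L : ℝ) ^ (B0 + 1) ≤ z := by rw [hL]; exact hz1
  have hz0 : Real.log (N : ℝ) ^ B0 ≤ z := by
    rw [← hL]
    exact (pow_le_pow_right₀ hL1 (by omega)).trans hzr
  have hzL : L ≤ z := (le_self_pow₀ hL1 (by omega)).trans hzr
  have hz2' : 2 ≤ z := by
    have : (2 : ℝ) ≤ z := by linarith
    exact_mod_cast this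
  have hvneg : ∀ i, |(-v i)| ≤ B * N := fun i => by rw [abs_neg]; exact hv i
  have m1 := fun (G : ℕ → ℝ) (hG : ∀ n, |G n| ≤ 1) => h1 N (by omega) ι v hv hE z hz0 hz2 G (fun n => by simpa using hG n)
    (fun _ => B * N) (fun _ => le_rfl)
  have m2 := fun (G : ℕ → ℝ) (hG : ∀ n, |G n| ≤ 1) => h1 N (by omega) ι (fun i => -v i) hvneg (by rw [En_neg]; exact hE) z hz0 hz2 G
    (fun n => by simpa using hG n) (fun _ => B * N) (fun _ => le_rfl)
  rw [← hL] at m1 m2 hc ⊢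
  have hLT : 0 ≤ L ^ T := by positivity
  obtain ⟨d1, d2⟩ := dual_one v z (B * N) _ (L ^ T) hLT c hc m1
  obtain ⟨d3, d4⟩ := dual_one (fun i => -v i) z (B * N) _ (L ^ T) hLT c hc m2
  obtain ⟨K, hK⟩ : ∃ K : ℝ, K = (Fintype.card ι : ℝ) := ⟨_, rfl⟩
  have hK0 : 0 ≤ K := by rw [hK]; exact Nat.cast_nonneg _
  rw [← hK] at d1 d2 d3 d4 ⊢
  obtain ⟨Y, hY⟩ : ∃ Y : ℝ, Y = N * K / L ^ (U + 3) := ⟨_, rfl⟩
  have hY0 : 0 ≤ Y := by rw [hY]; positivity
  have hYe : L ^ T * (N * K / L ^ (T + U + 3)) = Y := by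
    rw [hY, show T + U + 3 = T + (U + 3) by ring, pow_add]
    field_simp
  rw [hYe] at d1 d2 d3 d4
  -- the bound for the values
  obtain ⟨A, hA⟩ : ∃ A : ℕ, A = B * N := ⟨_, rfl⟩
  have hAr : (A : ℝ) = B * N := by rw [hA]; push_cast; ring
  have hA1 : 1 ≤ A := by rw [hA]; exact Nat.mul_pos hB (by omega)
  have hNA : N ≤ A := by rw [hA]; exact Nat.le_mul_of_pos_left _ (by omega)
  have hNlog : L ≤ N := by rw [hL]; exact Real.log_le_self hN0.le
  have hAAL : Real.log ((A + A : ℕ) : ℝ) ≤ 2 * L := by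
    have h5 : ((A + A : ℕ) : ℝ) ≤ N * N := by
      push_cast
      rw [hAr]
      nlinarith
    have h6 : Real.log ((A + A : ℕ) : ℝ) ≤ Real.log ((N : ℝ) * N) :=
      Real.log_le_log (by exact_mod_cast (by omega : 0 < A + A)) h5
    rw [Real.log_mul hN0.ne' hN0.ne'] at h6
    linarith
  have hVL : (Vz z)⁻¹ ≤ Real.log ((A + A : ℕ) : ℝ) := by
    have h5 := h3 N (by omega) z (by omega) hz2
    refine h5.trans (Real.log_le_log hN0 ?_)
    exact_mod_cast (by omega : N ≤ A + A)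
  have hdI : ∀ m : ℤ, m ≤ A → |dI z m| ≤ 2 * L := fun m hm =>
    (dI_le z (A + A) _ rfl hVL m (by push_cast; linarith [(by positivity : (0 : ℤ) ≤ A)])).trans hAAL
  have hzero : ∀ (u : ι → ℤ), (∀ i, u i ≤ A) → |∑ i, c i * dI z (u i)| ≤ K * (L ^ T * (2 * L)) := by
    intro u hu
    refine (abs_sum_le_sum_abs _ _).trans ?_
    refine (sum_le_card_nsmul _ _ (L ^ T * (2 * L)) fun i _ => ?_).trans (by rw [card_univ, nsmul_eq_mul, hK])
    rw [abs_mul]
    exact mul_le_mul (hc i) (hdI _ (hu i)) (abs_nonneg _) hLT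
  have hss : √(N : ℝ) * √(N : ℝ) = N := Real.mul_self_sqrt hN0.le
  have hsN : 1 ≤ √(N : ℝ) := by rw [Real.one_le_sqrt]; exact_mod_cast (by omega : 1 ≤ N)
  have hY1 : K * (L ^ T * (2 * L)) ≤ Y := by
    rw [hY, le_div_iff₀ (by positivity)]
    have h5 : L ^ T * (2 * L) * L ^ (U + 3) ≤ N := by
      calc L ^ T * (2 * L) * L ^ (U + 3) ≤ L ^ T * (L * L) * L ^ (U + 3) := by gcongr; linarith
        _ = L ^ (T + U + 5) := by rw [show T + U + 5 = T + 2 + (U + 3) by ring, pow_add, pow_add]; ring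
        _ ≤ L ^ (T + U + 8) := pow_le_pow_right₀ hL1 (by omega)
        _ ≤ √(N : ℝ) := by linarith
        _ ≤ √(N : ℝ) * √(N : ℝ) := le_mul_of_one_le_left (by positivity) hsN
        _ = N := hss
    calc K * (L ^ T * (2 * L)) * L ^ (U + 3) = K * (L ^ T * (2 * L) * L ^ (U + 3)) := by ring
      _ ≤ K * N := mul_le_mul_of_nonneg_left h5 hK0
      _ = N * K := by ring
  have hp : ∀ i, ∑ n ∈ Icc (-(A : ℤ)) A, ppw (v i + n).natAbs ≤ 8 * (Real.sqrt (A + A : ℕ) * L) := by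
    intro i
    refine (ppw_avg A A (v i) (by rw [hA]; push_cast; exact hv i) (by omega)).trans ?_
    have h5 : 0 ≤ Real.sqrt ((A + A : ℕ) : ℝ) := Real.sqrt_nonneg _
    nlinarith
  have hY2 : K * (L ^ T * (8 * (Real.sqrt (A + A : ℕ) * L))) ≤ Y := by
    rw [hY, le_div_iff₀ (by positivity)]
    have h5 : Real.sqrt ((A + A : ℕ) : ℝ) ≤ L * √(N : ℝ) := by
      apply Real.sqrt_le_iff.2
      constructor
      · positivity
      · rw [mul_pow, Real.sq_sqrt hN0.le]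
        push_cast
        rw [hAr]
        have h7 : 2 * (B : ℝ) ≤ L := by
          push_cast at hLbig
          linarith
        have h8 : L ≤ L ^ 2 := le_self_pow₀ hL1 (by norm_num)
        calc (B : ℝ) * N + B * N = 2 * (B : ℝ) * N := by ring
          _ ≤ L ^ 2 * N := mul_le_mul_of_nonneg_right (h7.trans h8) hN0.le
    have h6 : L ^ T * (8 * (Real.sqrt (A + A : ℕ) * L)) * L ^ (U + 3) ≤ N := by
      calc L ^ T * (8 * (Real.sqrt (A + A : ℕ) * L)) * L ^ (U + 3) ≤ L ^ T * (L * (L * √(N : ℝ) * L)) * L ^ (U + 3) := by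
            gcongr
            linarith
        _ = L ^ (T + U + 6) * √(N : ℝ) := by
            rw [show T + U + 6 = T + 3 + (U + 3) by ring, pow_add, pow_add]
            ring
        _ ≤ L ^ (T + U + 8) * √(N : ℝ) := mul_le_mul_of_nonneg_right (pow_le_pow_right₀ hL1 (by omega)) (by positivity)
        _ ≤ √(N : ℝ) * √(N : ℝ) := mul_le_mul_of_nonneg_right (by linarith) (by positivity)
        _ = N := hss
    calc K * (L ^ T * (8 * (Real.sqrt (A + A : ℕ) * L))) * L ^ (U + 3) =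
          K * (L ^ T * (8 * (Real.sqrt (A + A : ℕ) * L)) * L ^ (U + 3)) := by ring
      _ ≤ K * N := mul_le_mul_of_nonneg_left h6 hK0
      _ = N * K := by ring
  rw [← hA]
  have hpt : ∀ n : ℤ, |∑ i, c i * (thp (v i + n).natAbs - lamz z (v i + n).natAbs)| ≤
      |∑ i, c i * dI z (v i + n)| + |∑ i, c i * dI z (-(v i + n))| + L ^ T * ∑ i, ppw (v i + n).natAbs := by
    intro n
    have e1 : ∑ i, c i * (thp (v i + n).natAbs - lamz z (v i + n).natAbs) =
        ∑ i, c i * dI z (v i + n) + ∑ i, c i * dI z (-(v i + n)) - ∑ i, c i * ppw (v i + n).natAbs := by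
      rw [← sum_add_distrib, ← sum_sub_distrib]
      refine sum_congr rfl fun i _ => ?_
      have := dI_pair z hz2' (v i + n)
      rw [← mul_add, this]
      ring
    rw [e1]
    refine (abs_sub _ _).trans (add_le_add (abs_add_le _ _) ?_)
    refine (abs_sum_le_sum_abs _ _).trans ?_
    rw [mul_sum]
    refine sum_le_sum fun i _ => ?_
    rw [abs_mul, abs_of_nonneg (ppw_nn _)]
    exact mul_le_mul_of_nonneg_right (hc i) (ppw_nn _)
  refine (sum_le_sum fun n _ => hpt n).trans ?_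
  rw [sum_add_distrib, sum_add_distrib]
  have t1 : ∑ n ∈ Icc (-(A : ℤ)) A, |∑ i, c i * dI z (v i + n)| ≤ Y + Y + Y := by
    rw [sum_Icc_neg]
    refine add_le_add (add_le_add ?_ ?_) ?_
    · simp only [add_zero]
      refine (hzero v fun i => ?_).trans hY1
      have := (abs_le.1 (hv i)).2
      rw [hA]; push_cast; exact this
    · rw [← hA] at d1
      refine (le_of_eq ?_).trans d1
      exact sum_congr rfl fun m _ => by simp only [add_comm]
    · rw [← hA] at d2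
      refine (le_of_eq ?_).trans d2
      exact sum_congr rfl fun m _ => by simp only [sub_eq_add_neg]
  have t2 : ∑ n ∈ Icc (-(A : ℤ)) A, |∑ i, c i * dI z (-(v i + n))| ≤ Y + Y + Y := by
    rw [sum_Icc_neg]
    refine add_le_add (add_le_add ?_ ?_) ?_
    · simp only [add_zero]
      refine (hzero (fun i => -v i) fun i => ?_).trans hY1
      have := (abs_le.1 (hv i)).1
      rw [hA]; push_cast; linarith
    · rw [← hA] at d4
      refine (le_of_eq ?_).trans d4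
      exact sum_congr rfl fun m _ => by simp only [neg_add, sub_eq_add_neg]
    · rw [← hA] at d3
      refine (le_of_eq ?_).trans d3
      refine sum_congr rfl fun m _ => ?_
      congr 1
      refine sum_congr rfl fun i _ => ?_
      congr 2
      ring
  have t3 : ∑ n ∈ Icc (-(A : ℤ)) A, L ^ T * ∑ i, ppw (v i + n).natAbs ≤ Y := by
    rw [← mul_sum, sum_comm]
    calc L ^ T * ∑ i, ∑ n ∈ Icc (-(A : ℤ)) A, ppw (v i + n).natAbs ≤ L ^ T * ∑ _i : ι, 8 * (Real.sqrt (A + A : ℕ) * L) :=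
          mul_le_mul_of_nonneg_left (sum_le_sum fun i _ => hp i) hLT
      _ = K * (L ^ T * (8 * (Real.sqrt (A + A : ℕ) * L))) := by rw [sum_const, card_univ, nsmul_eq_mul, hK]; ring
      _ ≤ Y := hY2
  refine (add_le_add (add_le_add t1 t2) t3).trans ?_
  have e2 : (N : ℝ) * K / L ^ U = L ^ 3 * Y := by
    rw [hY, pow_add]
    field_simp
  rw [e2]
  have h7 : (7 : ℝ) ≤ L ^ 3 := by
    have : (7 : ℝ) ≤ L := by linarith
    exact this.trans (le_self_pow₀ hL1 (by norm_num))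
  nlinarith

end Pool.Agent.U108.PV
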