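import Pool.Agent.U108.DP.E1

set_option autoImplicit false

/-! Polynomials in one variable. -/

namespace Pool.Agent.U108.PV
open Finset
open Pool.Agent.U108.DP (Bo val poly_energy En_equiv hyp1)
open Pool.Agent.TH872.GQ (S)
open Pool.Agent.TH212.EH (En)
open Polynomial (X)
open scoped Polynomial

/-- a polynomial in one variable as a polynomial in the variables `Unit` -/
noncomputable def mv (F : ℤ[X]) : MvPolynomial Unit ℤ :=
  ∑ i ∈ range (F.natDegree + 1), MvPolynomial.C (F.coeff i) * MvPolynomial.X () ^ i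

lemma mv_eval (F : ℤ[X]) (x : Unit → ℤ) : MvPolynomial.eval x (mv F) = F.eval (x ()) := by
  unfold mv
  rw [map_sum, Polynomial.eval_eq_sum_range]
  refine sum_congr rfl fun i _ => ?_
  simp

lemma mv_degree (F : ℤ[X]) : (mv F).totalDegree ≤ F.natDegree := by
  unfold mv
  refine (MvPolynomial.totalDegree_finset_sum _ _).trans ?_
  apply Finset.sup_le
  intro i hi
  rw [mem_range] at hi
  refine (MvPolynomial.totalDegree_mul _ _).trans ?_
  rw [MvPolynomial.totalDegree_C, zero_add]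
  refine (MvPolynomial.totalDegree_pow _ _).trans ?_
  rw [MvPolynomial.totalDegree_X]
  omega

lemma mv_coeff (F : ℤ[X]) : (mv F).coeff (Finsupp.single () F.natDegree) = F.leadingCoeff := by
  classical
  unfold mv
  rw [MvPolynomial.coeff_sum, sum_eq_single F.natDegree]
  · rw [MvPolynomial.coeff_C_mul, MvPolynomial.coeff_X_pow, if_pos rfl, mul_one]
    rfl
  · intro i _ hi
    rw [MvPolynomial.coeff_C_mul, MvPolynomial.coeff_X_pow, if_neg, mul_zero]
    intro h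
    exact hi (by simpa using congrArg (fun f => f ()) h)
  · intro h
    exact absurd (mem_range.2 (Nat.lt_succ_self _)) h

/-- tuples indexed by `Unit` -/
def unitEquiv (b k : ℕ) (D : ℕ → Finset ℕ) : {n : Unit → ℕ // n ∈ Bo b k (fun _ => D)} ≃ {n : ℕ // n ∈ S b D k} where
  toFun n := ⟨n.1 (), (Fintype.mem_piFinset.1 n.2) ()⟩
  invFun n := ⟨fun _ => n.1, Fintype.mem_piFinset.2 fun _ => n.2⟩
  left_inv n := rfl
  right_inv n := rfl

/-- energy of the values of a polynomial at integers with restricted digits, in one variable -/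
theorem one_energy (b r B : ℕ) (hb : 2 ≤ b) : ∃ h k₀ : ℕ, 1 ≤ h ∧ ∀ k : ℕ, k₀ ≤ k →
    ((k : ℝ) ≤ Real.log ((b ^ ((r + 2) * k) : ℕ) : ℝ) ∧ Real.log ((b ^ ((r + 2) * k) : ℕ) : ℝ) ≤ (k : ℝ) ^ 2 ∧ k ≤ b ^ ((r + 2) * k)) ∧
    ∀ D : ℕ → Finset ℕ, (∀ i < k, D i ⊆ range b ∧ 2 ≤ (D i).card) → ∀ F : ℤ[X], F.natDegree = r + 2 →
    |F.leadingCoeff| ≤ (k : ℤ) ^ B →
    (En h (fun n : {n : ℕ // n ∈ S b D k} => F.eval ((n : ℕ) : ℤ)) : ℝ) * ((b ^ ((r + 2) * k) : ℕ) : ℝ) ≤
      Real.log ((b ^ ((r + 2) * k) : ℕ) : ℝ) ^ (2 * B + 1) * (Fintype.card {n : ℕ // n ∈ S b D k} : ℝ) ^ (2 * h) := by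
  classical
  obtain ⟨h, k₀, hh, H⟩ := hyp1 b r B hb
  refine ⟨h, k₀, hh, fun k hk => ⟨(H k hk).1, fun D hD F hF hlc => ?_⟩⟩
  have hF0 : F.leadingCoeff ≠ 0 := by
    rw [Ne, Polynomial.leadingCoeff_eq_zero]
    rintro rfl
    simp at hF
  have h1 := (H k hk).2 Unit (fun _ => D) (fun _ => hD) (mv F) (by rw [← hF]; exact mv_degree F) (Finsupp.single () (r + 2))
    (by simp) (by rw [← hF, mv_coeff]; exact hF0) (by rw [← hF, mv_coeff]; exact hlc)
  have e1 : (fun n : {n : Unit → ℕ // n ∈ Bo b k (fun _ => D)} => val (mv F) n) =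
      fun n => (fun n : {n : ℕ // n ∈ S b D k} => F.eval ((n : ℕ) : ℤ)) (unitEquiv b k D n) := by
    funext n
    unfold Pool.Agent.U108.DP.val
    rw [mv_eval]
    rfl
  rw [e1, En_equiv h (unitEquiv b k D) (fun n : {n : ℕ // n ∈ S b D k} => F.eval ((n : ℕ) : ℤ)),
    Fintype.card_congr (unitEquiv b k D)] at h1
  exact h1

end Pool.Agent.U108.PV
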