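import Pool.Agent.U108.PV.E
import Pool.Agent.U108.PV.F
import Pool.Agent.U108.PV.G
import Pool.Agent.TH204.WR.W12

set_option autoImplicit false

/-! Prime values `F(n) + c` at integers with restricted digits, for almost all `c`; the product over small primes. -/

namespace Pool.Agent.U108.PV
open Finset
open Pool.Agent.TH872.GQ (S)
open Pool.Agent.TH212.EH (En)
open Pool.Agent.H373R2.T7 (lamz Vz pz mem_pz Vz_inv_small Vz_pos nuB nuB_le)
open Pool.Agent.R460.SQ (thp)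
open Pool.Agent.TH204.WR (rho rho_le_deg')
open Polynomial (X)
open scoped Polynomial

open Classical in
/-- the number (with weights) of the `n` for which `F(n) + c` has no prime factor `≤ b` -/
noncomputable def base (b k j : ℕ) (D : ℕ → Finset ℕ) (w : ℕ → ℝ) (F : ℤ[X]) (c : ℤ) : ℝ :=
  ∑ n ∈ (S b D k).filter (fun n : ℕ => ∀ p ∈ pz b, ¬ (p : ℤ) ∣ F.eval (n : ℤ) + c), w (n / b ^ j)

/-- the product over the primes `b < p ≤ z` -/
noncomputable def prodz (b z : ℕ) (F : ℤ[X]) (c : ℤ) : ℝ :=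
  ∏ p ∈ (pz z).filter (fun p => b < p), (1 - (rho F c p : ℝ) / p)

lemma eval_mod (F : ℤ[X]) (c : ℤ) (p n : ℕ) : ((p : ℤ) ∣ F.eval (n : ℤ) + c) ↔ ((p : ℤ) ∣ F.eval ((n % p : ℕ) : ℤ) + c) := by
  have h1 : (p : ℤ) ∣ (n : ℤ) - ((n % p : ℕ) : ℤ) := by
    push_cast
    exact Int.dvd_self_sub_emod
  have h2 : (p : ℤ) ∣ F.eval (n : ℤ) - F.eval ((n % p : ℕ) : ℤ) := h1.trans (Polynomial.sub_dvd_eval_sub _ _ F)
  apply Int.dvd_iff_dvd_of_dvd_sub
  have e : F.eval (n : ℤ) + c - (F.eval ((n % p : ℕ) : ℤ) + c) = F.eval (n : ℤ) - F.eval ((n % p : ℕ) : ℤ) := by ring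
  rw [e]
  exact h2

lemma model_sum (b k j z : ℕ) (hbz : b ≤ z) (D : ℕ → Finset ℕ) (w : ℕ → ℝ) (F : ℤ[X]) (c : ℤ) :
    ∑ n ∈ S b D k, w (n / b ^ j) * lamz z (F.eval (n : ℤ) + c).natAbs =
      (Vz z)⁻¹ * ∑ n ∈ (S b D k).filter (fun n : ℕ => (∀ p ∈ pz b, ¬ (p : ℤ) ∣ F.eval (n : ℤ) + c) ∧
        ∀ p ∈ (pz z).filter (fun p => b < p), ¬ (p : ℤ) ∣ F.eval (n : ℤ) + c), w (n / b ^ j) := by
  classical
  rw [sum_filter, mul_sum]
  refine sum_congr rfl fun n _ => ?_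
  unfold lamz
  have h1 : (∀ p ∈ pz z, ¬ p ∣ (F.eval (n : ℤ) + c).natAbs) ↔ ((∀ p ∈ pz b, ¬ (p : ℤ) ∣ F.eval (n : ℤ) + c) ∧
        ∀ p ∈ (pz z).filter (fun p => b < p), ¬ (p : ℤ) ∣ F.eval (n : ℤ) + c) := by
    constructor
    · intro h
      constructor
      · intro p hp hd
        rw [mem_pz] at hp
        exact h p (mem_pz.2 ⟨by omega, hp.2⟩) (Int.natCast_dvd.1 hd)
      · intro p hp hd
        exact h p (mem_filter.1 hp).1 (Int.natCast_dvd.1 hd)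
    · rintro ⟨h1, h2⟩ p hp hd
      rcases Nat.lt_or_ge b p with h3 | h3
      · exact h2 p (mem_filter.2 ⟨hp, h3⟩) (Int.natCast_dvd.2 hd)
      · exact h1 p (mem_pz.2 ⟨h3, (mem_pz.1 hp).2⟩) (Int.natCast_dvd.2 hd)
  by_cases h2 : ∀ p ∈ pz z, ¬ p ∣ (F.eval (n : ℤ) + c).natAbs
  · rw [if_pos h2, if_pos (h1.1 h2)]
    ring
  · rw [if_neg h2, if_neg (fun h => h2 (h1.2 h))]
    ring

open Classical in
theorem core (b r B U : ℕ) (hb : 2 ≤ b) (F : ℤ[X]) (hF : F.natDegree = r + 2) : ∃ E0 : ℕ, ∀ E : ℕ, ∃ k₀ : ℕ, ∀ k : ℕ, k₀ ≤ k →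
    ∀ D : ℕ → Finset ℕ, (∀ i < k, D i ⊆ range b ∧ 2 ≤ (D i).card) → ∀ j : ℕ, j ≤ k → k ≤ 2 * j →
    ∀ w : ℕ → ℝ, (∀ x, 0 ≤ w x ∧ w x ≤ 1) → ∀ z : ℕ, k ^ E0 ≤ z → z ≤ k ^ E →
    (((Icc (-((B * b ^ ((r + 2) * k) : ℕ) : ℤ)) ((B * b ^ ((r + 2) * k) : ℕ) : ℤ)).filter (fun c : ℤ =>
      (S b D k).card / (k : ℝ) ^ U < |∑ n ∈ S b D k, w (n / b ^ j) * thp (F.eval (n : ℤ) + c).natAbs -
        (Vz z)⁻¹ * (base b k j D w F c * prodz b z F c)|)).card : ℝ) ≤ ((b ^ ((r + 2) * k) : ℕ) : ℝ) / (k : ℝ) ^ U := by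
  have hF0 : F.leadingCoeff ≠ 0 := by
    rw [Ne, Polynomial.leadingCoeff_eq_zero]
    rintro rfl
    simp at hF
  obtain ⟨h, k₁, hh, hen⟩ := one_energy b r 1 hb
  obtain ⟨BF, hBF⟩ := Pool.Agent.U108.DP.eval_le (mv F) (r + 2) (by rw [← hF]; exact mv_degree F)
  obtain ⟨B', hB'⟩ : ∃ B', B' = B + BF + 1 := ⟨_, rfl⟩
  obtain ⟨U', hU'⟩ : ∃ U', U' = 2 * U + 2 := ⟨_, rfl⟩
  obtain ⟨B0, h0⟩ := dual h B' 3 U' 0 (by omega)
  refine ⟨2 * B0 + 2, fun E => ?_⟩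
  obtain ⟨N0, h1⟩ := h0 E
  obtain ⟨c₁, hc₁⟩ : ∃ c₁, c₁ = r + 2 + F.leadingCoeff.natAbs := ⟨_, rfl⟩
  obtain ⟨k₂, h2⟩ := sieve_S b c₁ E (U + 3) hb (by omega)
  obtain ⟨N1, h3⟩ := Vz_inv_small E
  refine ⟨k₁ + k₂ + N0 + N1 + b + F.leadingCoeff.natAbs + 10, fun k hk D hD j hjk hkj w hw z hz1 hz2 => ?_⟩
  obtain ⟨⟨hl1, hl2, hkN⟩, hE⟩ := hen k (by omega)
  have hE' := hE D hD F hF (by
    rw [pow_one, Int.abs_eq_natAbs]
    exact_mod_cast (by omega : F.leadingCoeff.natAbs ≤ k))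
  obtain ⟨N, hN⟩ : ∃ N, N = b ^ ((r + 2) * k) := ⟨_, rfl⟩
  rw [← hN] at hl1 hl2 hkN hE' ⊢
  obtain ⟨L, hL⟩ : ∃ L, L = Real.log (N : ℝ) := ⟨_, rfl⟩
  have hk10 : (10 : ℝ) ≤ k := by exact_mod_cast (by omega : 10 ≤ k)
  have hk0 : (0 : ℝ) < k := by linarith
  have hk1 : (1 : ℝ) ≤ k := by linarith
  have hN0' : 0 < N := by rw [hN]; positivity
  have hNr : (0 : ℝ) < N := by exact_mod_cast hN0'
  have hz1r : (k : ℝ) ^ (2 * B0 + 2) ≤ z := by exact_mod_cast hz1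
  have hz2r : (z : ℝ) ≤ (k : ℝ) ^ E := by exact_mod_cast hz2
  have hkz : k ≤ z := by
    refine le_trans ?_ hz1
    exact Nat.le_self_pow (by omega) k
  have hzlo : Real.log (N : ℝ) ^ B0 ≤ z := by
    refine le_trans (pow_le_pow_left₀ (by linarith) hl2 B0) ?_
    rw [← pow_mul]
    exact (pow_le_pow_right₀ hk1 (by omega)).trans hz1r
  have hzhi : (z : ℝ) ≤ Real.log (N : ℝ) ^ E := hz2r.trans (pow_le_pow_left₀ hk0.le hl1 E)
  have hV := h3 N (by omega) z (by omega) hzhi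
  have hV0 : 0 ≤ (Vz z)⁻¹ := inv_nonneg.2 (Vz_pos z).le
  obtain ⟨s, hs⟩ : ∃ s : ℝ, s = (S b D k).card := ⟨_, rfl⟩
  have hs0 : 0 ≤ s := by rw [hs]; exact Nat.cast_nonneg _
  have hcard : (Fintype.card {n : ℕ // n ∈ S b D k} : ℝ) = s := by rw [Fintype.card_coe, hs]
  -- the average
  have hav := h1 N (by omega) {n : ℕ // n ∈ S b D k} (fun n => F.eval ((n : ℕ) : ℤ)) (by
    intro n
    have hn := (mem_S.1 n.2).1
    have h4 := hBF b k (fun _ => (n : ℕ)) (by omega) (fun _ => hn)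
    rw [mv_eval] at h4
    refine h4.trans ?_
    rw [hN, hB']
    push_cast
    have h5 : (0 : ℤ) ≤ (b : ℤ) ^ ((r + 2) * k) := by positivity
    nlinarith [(Nat.cast_nonneg B : (0 : ℤ) ≤ B)]) hE' z hzlo hzhi (fun n => w ((n : ℕ) / b ^ j)) (fun n => by
      rw [pow_zero, abs_of_nonneg (hw _).1]
      exact (hw _).2)
  rw [hcard] at hav
  have hconv : ∀ c : ℤ, ∑ n : {n : ℕ // n ∈ S b D k}, w ((n : ℕ) / b ^ j) * (thp (F.eval ((n : ℕ) : ℤ) + c).natAbs - lamz z (F.eval ((n : ℕ) : ℤ) + c).natAbs) =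
      ∑ n ∈ S b D k, w (n / b ^ j) * (thp (F.eval (n : ℤ) + c).natAbs - lamz z (F.eval (n : ℤ) + c).natAbs) := by
    intro c
    exact Finset.sum_coe_sort (S b D k) (fun n => w (n / b ^ j) * (thp (F.eval (n : ℤ) + c).natAbs - lamz z (F.eval (n : ℤ) + c).natAbs))
  simp only [hconv] at hav
  -- the sieve
  have hsv : ∀ c : ℤ, |∑ n ∈ S b D k, w (n / b ^ j) * lamz z (F.eval (n : ℤ) + c).natAbs -
      (Vz z)⁻¹ * (base b k j D w F c * prodz b z F c)| ≤ s / (2 * (k : ℝ) ^ U) := by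
    intro c
    rw [model_sum b k j z (by omega) D w F c, ← mul_sub, abs_mul, abs_of_nonneg hV0]
    have h4 := h2 k (by omega) D hD j hjk hkj w hw z (by omega) hz2r (fun p n => (p : ℤ) ∣ F.eval (n : ℤ) + c)
      (fun p n => eval_mod F c p n) (fun p hp hbp => by
        rcases Nat.lt_or_ge F.leadingCoeff.natAbs p with h5 | h5
        · have h6 := rho_le_deg' F c p hp (by omega) h5 hF0
          have h7 : nuB (fun p n => (p : ℤ) ∣ F.eval (n : ℤ) + c) p ≤ rho F c p := by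
            unfold nuB Pool.Agent.TH204.WR.rho
            apply le_of_eq
            congr!
          omega
        · have := nuB_le (fun p n => (p : ℤ) ∣ F.eval (n : ℤ) + c) p
          omega)
    have e1 : ∏ p ∈ (pz z).filter (fun p => b < p), (1 - (nuB (fun p n => (p : ℤ) ∣ F.eval (n : ℤ) + c) p : ℝ) / p) = prodz b z F c := by
      unfold prodz nuB Pool.Agent.TH204.WR.rho
      refine prod_congr rfl fun p _ => ?_
      congr!
    rw [e1] at h4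
    have h5 : |∑ n ∈ (S b D k).filter (fun n : ℕ => (∀ p ∈ pz b, ¬ (p : ℤ) ∣ F.eval (n : ℤ) + c) ∧
        ∀ p ∈ (pz z).filter (fun p => b < p), ¬ (p : ℤ) ∣ F.eval (n : ℤ) + c), w (n / b ^ j) - base b k j D w F c * prodz b z F c| ≤
        s / (k : ℝ) ^ (U + 3) := by
      rw [hs]
      unfold base
      convert h4
    calc (Vz z)⁻¹ * |∑ n ∈ (S b D k).filter (fun n : ℕ => (∀ p ∈ pz b, ¬ (p : ℤ) ∣ F.eval (n : ℤ) + c) ∧
        ∀ p ∈ (pz z).filter (fun p => b < p), ¬ (p : ℤ) ∣ F.eval (n : ℤ) + c), w (n / b ^ j) - base b k j D w F c * prodz b z F c|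
        ≤ (k : ℝ) ^ 2 * (s / (k : ℝ) ^ (U + 3)) := mul_le_mul (hV.trans hl2) h5 (abs_nonneg _) (by positivity)
      _ = s / (k * (k : ℝ) ^ U) := by rw [pow_add]; field_simp
      _ ≤ s / (2 * (k : ℝ) ^ U) := by
          apply div_le_div_of_nonneg_left hs0 (by positivity)
          exact mul_le_mul_of_nonneg_right (by linarith) (by positivity)
  -- Markov
  obtain ⟨Bad, hBad⟩ : ∃ Bad : Finset ℤ, Bad = (Icc (-((B * N : ℕ) : ℤ)) ((B * N : ℕ) : ℤ)).filter (fun c : ℤ =>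
      (S b D k).card / (k : ℝ) ^ U < |∑ n ∈ S b D k, w (n / b ^ j) * thp (F.eval (n : ℤ) + c).natAbs -
        (Vz z)⁻¹ * (base b k j D w F c * prodz b z F c)|) := ⟨_, rfl⟩
  rw [← hBad]
  have hbig : ∀ c ∈ Bad, s / (2 * (k : ℝ) ^ U) ≤ |∑ n ∈ S b D k, w (n / b ^ j) *
      (thp (F.eval (n : ℤ) + c).natAbs - lamz z (F.eval (n : ℤ) + c).natAbs)| := by
    intro c hc
    rw [hBad, mem_filter] at hc
    have h4 := hc.2
    rw [← hs] at h4
    have h5 := hsv c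
    have e1 : ∑ n ∈ S b D k, w (n / b ^ j) * thp (F.eval (n : ℤ) + c).natAbs - (Vz z)⁻¹ * (base b k j D w F c * prodz b z F c) =
        ∑ n ∈ S b D k, w (n / b ^ j) * (thp (F.eval (n : ℤ) + c).natAbs - lamz z (F.eval (n : ℤ) + c).natAbs) +
        (∑ n ∈ S b D k, w (n / b ^ j) * lamz z (F.eval (n : ℤ) + c).natAbs - (Vz z)⁻¹ * (base b k j D w F c * prodz b z F c)) := by
      simp only [mul_sub, sum_sub_distrib]
      ring
    rw [e1] at h4
    have h6 := abs_add_le (∑ n ∈ S b D k, w (n / b ^ j) * (thp (F.eval (n : ℤ) + c).natAbs - lamz z (F.eval (n : ℤ) + c).natAbs))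
        (∑ n ∈ S b D k, w (n / b ^ j) * lamz z (F.eval (n : ℤ) + c).natAbs - (Vz z)⁻¹ * (base b k j D w F c * prodz b z F c))
    have e2 : s / (k : ℝ) ^ U = s / (2 * (k : ℝ) ^ U) + s / (2 * (k : ℝ) ^ U) := by field_simp; ring
    rw [e2] at h4
    linarith
  have hsub : Bad ⊆ Icc (-((B' * N : ℕ) : ℤ)) ((B' * N : ℕ) : ℤ) := by
    intro c hc
    rw [hBad, mem_filter, mem_Icc] at hc
    rw [mem_Icc]
    have h4 : ((B * N : ℕ) : ℤ) ≤ ((B' * N : ℕ) : ℤ) := by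
      have : B * N ≤ B' * N := Nat.mul_le_mul_right _ (by omega)
      exact_mod_cast this
    exact ⟨by linarith [hc.1.1], by linarith [hc.1.2]⟩
  have hsum : (Bad.card : ℝ) * (s / (2 * (k : ℝ) ^ U)) ≤ N * s / (k : ℝ) ^ U' := by
    calc (Bad.card : ℝ) * (s / (2 * (k : ℝ) ^ U)) = ∑ _c ∈ Bad, s / (2 * (k : ℝ) ^ U) := by rw [sum_const, nsmul_eq_mul]
      _ ≤ ∑ c ∈ Bad, |∑ n ∈ S b D k, w (n / b ^ j) * (thp (F.eval (n : ℤ) + c).natAbs - lamz z (F.eval (n : ℤ) + c).natAbs)| :=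
          sum_le_sum hbig
      _ ≤ _ := sum_le_sum_of_subset_of_nonneg hsub fun _ _ _ => abs_nonneg _
      _ ≤ N * s / Real.log (N : ℝ) ^ U' := hav
      _ ≤ _ := div_le_div_of_nonneg_left (by positivity) (by positivity) (pow_le_pow_left₀ hk0.le hl1 _)
  rcases eq_or_lt_of_le hs0 with h4 | h4
  · -- the empty set
    exfalso
    have h5 : (S b D k).card = 0 := by
      rw [← h4] at hs
      exact_mod_cast hs.symm
    have h6 : 0 < (S b D k).card := by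
      have h7 : ∀ t : ℕ, (∀ i < t, D i ⊆ range b ∧ 2 ≤ (D i).card) → 0 < (S b D t).card := by
        intro t
        induction t with
        | zero => intro _; rw [S_zero]; simp
        | succ t ih =>
          intro hDt
          have h8 := ih (fun i hi => hDt i (by omega))
          rw [card_split b t 1 (by omega) D, S_one b (fun i => D (t + i)) (hDt t (by omega)).1]
          exact Nat.mul_pos (by have := (hDt t (by omega)).2; simpa using (by omega : 0 < (D t).card)) h8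
      exact h7 k hD
    omega
  · have h5 : (Bad.card : ℝ) * (s / (2 * (k : ℝ) ^ U)) = s * ((Bad.card : ℝ) / (2 * (k : ℝ) ^ U)) := by ring
    have h6 : N * s / (k : ℝ) ^ U' = s * (N / (k : ℝ) ^ U') := by ring
    rw [h5, h6] at hsum
    have h7 := le_of_mul_le_mul_left hsum h4
    rw [div_le_iff₀ (by positivity)] at h7
    refine h7.trans ?_
    rw [hU', show 2 * U + 2 = U + U + 2 by ring, pow_add, pow_add]
    calc (N : ℝ) / ((k : ℝ) ^ U * (k : ℝ) ^ U * (k : ℝ) ^ 2) * (2 * (k : ℝ) ^ U) = (N : ℝ) / (k : ℝ) ^ U * (2 / (k : ℝ) ^ 2) := by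
          field_simp
      _ ≤ (N : ℝ) / (k : ℝ) ^ U * 1 := by
          apply mul_le_mul_of_nonneg_left _ (by positivity)
          rw [div_le_one (by positivity)]
          nlinarith
      _ = _ := mul_one _

end Pool.Agent.U108.PV
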