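import Pool.Agent.U108.PV.I
import Pool.Agent.TH204.WR.W13

set_option autoImplicit false

/-! The product over the primes, truncated anywhere. -/

namespace Pool.Agent.U108.PV
open Finset
open Pool.Agent.TH872.GQ (S)
open Pool.Agent.H373R2.T7 (lamz Vz pz mem_pz Vz_inv_small Vz_pos nuB nuB_le)
open Pool.Agent.TH204.WR (rho xp xp_le tail_all)
open Polynomial (X)
open scoped Polynomial

lemma prod_close (F : ℤ[X]) (t : ℤ) (y z : ℕ) (hd : 1 ≤ F.natDegree) (hl : F.leadingCoeff.natAbs ≤ y)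
    (hl0 : F.leadingCoeff ≠ 0) (hyz : y ≤ z) (κ : ℝ) (hy : 8 * (F.natDegree : ℝ) ^ 2 ≤ κ * y)
    (hy4 : 4 * F.natDegree ≤ y) (hκ1 : 2 * κ ≤ 1)
    (ht : |∑ p ∈ (Ioc y z).filter Nat.Prime, xp F t p| ≤ κ) :
    |∏ p ∈ (Ioc y z).filter Nat.Prime, (1 - xp F t p) - 1| ≤ 4 * κ := by
  have hκ0 : 0 ≤ κ := (abs_nonneg _).trans ht
  have hd1 : (1 : ℝ) ≤ F.natDegree := by exact_mod_cast hd
  have hy1 : 1 ≤ y := by omega
  have hyr : (0 : ℝ) < y := by exact_mod_cast hy1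
  set P := (Ioc y z).filter Nat.Prime with hP
  have hxp : ∀ p ∈ P, |xp F t p| ≤ 1 / 2 ∧ (xp F t p) ^ 2 ≤ 4 * (F.natDegree : ℝ) ^ 2 * (1 / (p : ℝ) ^ 2) := by
    intro p hp
    rw [hP, mem_filter, mem_Ioc] at hp
    have h1 := xp_le F t p hp.2 hd (by omega) hl0
    have hp0 : (0 : ℝ) < p := by exact_mod_cast hp.2.pos
    constructor
    · refine h1.trans ?_
      rw [div_le_div_iff₀ hp0 (by norm_num)]
      have : ((4 * F.natDegree : ℕ) : ℝ) ≤ p := by exact_mod_cast (by omega : 4 * F.natDegree ≤ p)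
      push_cast at this
      linarith
    · rw [← sq_abs]
      refine (pow_le_pow_left₀ (abs_nonneg _) h1 2).trans (le_of_eq ?_)
      ring
  have hpos : ∀ p ∈ P, 0 < 1 - xp F t p := by
    intro p hp
    have := (abs_le.1 (hxp p hp).1).2
    linarith
  have hprod : ∏ p ∈ P, (1 - xp F t p) = Real.exp (∑ p ∈ P, Real.log (1 - xp F t p)) := by
    rw [Real.exp_sum]
    apply prod_congr rfl
    intro p hp
    rw [Real.exp_log (hpos p hp)]
  have hlog : |∑ p ∈ P, Real.log (1 - xp F t p)| ≤ 2 * κ := by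
    have h1 : ∀ p ∈ P, |xp F t p + Real.log (1 - xp F t p)| ≤ 8 * (F.natDegree : ℝ) ^ 2 * (1 / (p : ℝ) ^ 2) := by
      intro p hp
      obtain ⟨h2, h3⟩ := hxp p hp
      have h4 := Real.abs_log_sub_add_sum_range_le (x := xp F t p) (by linarith) 1
      simp only [sum_range_one, zero_add, pow_one, Nat.cast_zero, div_one] at h4
      refine h4.trans ?_
      have h5 : |xp F t p| ^ (1 + 1) = (xp F t p) ^ 2 := by norm_num
      rw [h5, div_le_iff₀ (by linarith)]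
      have h6 : 0 ≤ 8 * (F.natDegree : ℝ) ^ 2 * (1 / (p : ℝ) ^ 2) := by positivity
      have h7 : 8 * (F.natDegree : ℝ) ^ 2 * (1 / (p : ℝ) ^ 2) * (1 / 2) ≤ 8 * (F.natDegree : ℝ) ^ 2 * (1 / (p : ℝ) ^ 2) * (1 - |xp F t p|) :=
        mul_le_mul_of_nonneg_left (by linarith) h6
      linarith
    have h2 : ∑ p ∈ P, Real.log (1 - xp F t p) = ∑ p ∈ P, (xp F t p + Real.log (1 - xp F t p)) - ∑ p ∈ P, xp F t p := by
      rw [sum_add_distrib]; ring
    rw [h2]
    refine (abs_sub _ _).trans ?_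
    have h3 : |∑ p ∈ P, (xp F t p + Real.log (1 - xp F t p))| ≤ 8 * (F.natDegree : ℝ) ^ 2 * (1 / y) := by
      refine (abs_sum_le_sum_abs _ _).trans ((sum_le_sum h1).trans ?_)
      rw [← mul_sum]
      apply mul_le_mul_of_nonneg_left _ (by positivity)
      have h5 : ∑ p ∈ P, 1 / (p : ℝ) ^ 2 ≤ ∑ n ∈ Ioc y z, (1 / ((n : ℝ) - 1) - 1 / n) := by
        rw [hP]
        calc ∑ p ∈ (Ioc y z).filter Nat.Prime, 1 / (p : ℝ) ^ 2 ≤ ∑ n ∈ Ioc y z, 1 / (n : ℝ) ^ 2 :=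
              sum_le_sum_of_subset_of_nonneg (filter_subset _ _) (fun _ _ _ => by positivity)
          _ ≤ _ := by
              refine sum_le_sum fun n hn => ?_
              rw [mem_Ioc] at hn
              have h6 : (2 : ℝ) ≤ n := by exact_mod_cast (by omega : 2 ≤ n)
              have h7 : (n : ℝ) - 1 ≠ 0 := by linarith
              have h8 : (n : ℝ) ≠ 0 := by linarith
              rw [div_sub_div _ _ h7 h8, div_le_div_iff₀ (by positivity) (by apply mul_pos <;> linarith)]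
              nlinarith
      refine h5.trans ?_
      have h6 : ∀ z : ℕ, y ≤ z → ∑ n ∈ Ioc y z, (1 / ((n : ℝ) - 1) - 1 / n) = 1 / (y : ℝ) - 1 / z := by
        intro z hz
        induction z, hz using Nat.le_induction with
        | base => simp
        | succ z hz ih =>
          rw [sum_Ioc_succ_top hz, ih]
          push_cast
          ring
      rw [h6 z hyz]
      have : 0 ≤ 1 / (z : ℝ) := by positivity
      linarith
    have h4 : 8 * (F.natDegree : ℝ) ^ 2 * (1 / y) ≤ κ := by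
      rw [mul_one_div, div_le_iff₀ hyr]
      exact hy
    linarith
  have h1 := Real.abs_exp_sub_one_le (x := ∑ p ∈ P, Real.log (1 - xp F t p)) (by linarith)
  rw [hprod]
  linarith

/-- the product of the densities over the primes `b < p ≤ z`, normalised -/
noncomputable def GG (b z : ℕ) (F : ℤ[X]) (c : ℤ) : ℝ :=
  (Vz b)⁻¹ * ∏ p ∈ (Ioc b z).filter Nat.Prime, (1 - xp F c p)

lemma pz_split (b z : ℕ) (hbz : b ≤ z) : (pz z).filter (fun p => b < p) = (Ioc b z).filter Nat.Prime := by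
  ext p
  rw [mem_filter, mem_filter, mem_pz, mem_Ioc]
  constructor
  · rintro ⟨⟨h1, h2⟩, h3⟩
    exact ⟨⟨h3, h1⟩, h2⟩
  · rintro ⟨⟨h1, h2⟩, h3⟩
    exact ⟨⟨h2, h3⟩, h1⟩

lemma GG_eq (b z : ℕ) (hbz : b ≤ z) (F : ℤ[X]) (c : ℤ) : (Vz z)⁻¹ * prodz b z F c = GG b z F c := by
  have h1 : ∀ p : ℕ, p.Prime → (1 - 1 / (p : ℝ))⁻¹ * (1 - (rho F c p : ℝ) / p) = 1 - xp F c p := by
    intro p hp
    have hp2 : (2 : ℝ) ≤ p := by exact_mod_cast hp.two_le
    unfold xp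
    have h3 : (p : ℝ) - 1 ≠ 0 := by linarith
    have h4 : (p : ℝ) ≠ 0 := by linarith
    have h5 : 1 - 1 / (p : ℝ) = ((p : ℝ) - 1) / p := by field_simp
    rw [h5]
    field_simp
    ring
  have h2 : Vz z = Vz b * ∏ p ∈ (Ioc b z).filter Nat.Prime, (1 - 1 / (p : ℝ)) := by
    unfold Vz
    have hu : pz z = pz b ∪ (Ioc b z).filter Nat.Prime := by
      ext p
      rw [mem_union, mem_filter, mem_Ioc, mem_pz, mem_pz]
      constructor
      · rintro ⟨h1, h2⟩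
        rcases Nat.lt_or_ge b p with h3 | h3
        · right; exact ⟨⟨h3, h1⟩, h2⟩
        · left; exact ⟨h3, h2⟩
      · rintro (⟨h1, h2⟩ | ⟨⟨h1, h2⟩, h3⟩)
        · exact ⟨by omega, h2⟩
        · exact ⟨h2, h3⟩
    have hdis : Disjoint (pz b) ((Ioc b z).filter Nat.Prime) := by
      rw [disjoint_left]
      intro p hp hq
      rw [mem_filter, mem_Ioc] at hq
      rw [mem_pz] at hp
      omega
    rw [hu, prod_union hdis]
  unfold GG prodz
  rw [pz_split b z hbz, h2, mul_inv, ← prod_inv_distrib, mul_assoc, ← prod_mul_distrib]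
  congr 1
  apply prod_congr rfl
  intro p hp
  exact h1 p (mem_filter.1 hp).2

lemma GG_mul (b y z : ℕ) (hby : b ≤ y) (hyz : y ≤ z) (F : ℤ[X]) (c : ℤ) :
    GG b z F c = GG b y F c * ∏ p ∈ (Ioc y z).filter Nat.Prime, (1 - xp F c p) := by
  unfold GG
  rw [mul_assoc]
  congr 1
  have hu : (Ioc b z).filter Nat.Prime = (Ioc b y).filter Nat.Prime ∪ (Ioc y z).filter Nat.Prime := by
    rw [← filter_union, Ioc_union_Ioc_eq_Ioc hby hyz]
  have hdis : Disjoint ((Ioc b y).filter Nat.Prime) ((Ioc y z).filter Nat.Prime) := by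
    rw [disjoint_left]
    intro p hp hq
    rw [mem_filter, mem_Ioc] at hp hq
    omega
  rw [hu, prod_union hdis]

lemma prodz_le (b z : ℕ) (F : ℤ[X]) (c : ℤ) : |prodz b z F c| ≤ 1 := by
  unfold prodz
  rw [abs_prod]
  apply prod_le_one (fun _ _ => abs_nonneg _)
  intro p hp
  rw [mem_filter, mem_pz] at hp
  have hp0 : (0 : ℝ) < p := by exact_mod_cast hp.1.2.pos
  have h4 : (rho F c p : ℝ) ≤ p := by
    unfold Pool.Agent.TH204.WR.rho
    exact_mod_cast (card_filter_le _ _).trans (by rw [card_range])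
  have h5 : (rho F c p : ℝ) / p ≤ 1 := (div_le_one hp0).2 h4
  have h6 : 0 ≤ (rho F c p : ℝ) / p := by positivity
  rw [abs_le]
  constructor <;> linarith

open Classical in
theorem final (b r B U : ℕ) (hb : 2 ≤ b) (F : ℤ[X]) (hF : F.natDegree = r + 2) : ∃ E0 k₀ : ℕ, ∀ k : ℕ, k₀ ≤ k →
    ∀ D : ℕ → Finset ℕ, (∀ i < k, D i ⊆ range b ∧ 2 ≤ (D i).card) →
    (((Icc (-((B * b ^ ((r + 2) * k) : ℕ) : ℤ)) ((B * b ^ ((r + 2) * k) : ℕ) : ℤ)).filter (fun c : ℤ =>
      ¬ ∀ y z : ℕ, k ^ E0 ≤ z → z ^ 3 ≤ b ^ ((r + 2) * k) →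
        |TH b k D F c y - GG b z F c * BA b k D F c y| ≤ (S b D k).card / (k : ℝ) ^ U)).card : ℝ) ≤
      ((b ^ ((r + 2) * k) : ℕ) : ℝ) / (k : ℝ) ^ U := by
  have hF0 : F.leadingCoeff ≠ 0 := by
    rw [Ne, Polynomial.leadingCoeff_eq_zero]
    rintro rfl
    simp at hF
  obtain ⟨A, hA⟩ : ∃ A, A = U + 4 := ⟨_, rfl⟩
  obtain ⟨E1, h1⟩ := core_y b r B (U + 1) hb F hF
  obtain ⟨Et, h2⟩ := tail_all F (by omega) A (U + 2)
  obtain ⟨h, k₁, hh, hen⟩ := one_energy b r 1 hb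
  obtain ⟨E, hEd⟩ : ∃ E, E = E1 + Et + A + 1 := ⟨_, rfl⟩
  obtain ⟨X0, h3⟩ := h2 E (by omega)
  obtain ⟨k₂, h4⟩ := h1 (3 * E)
  obtain ⟨N1, h5⟩ := Vz_inv_small (3 * E)
  refine ⟨3 * E, k₁ + k₂ + X0 + N1 + b + B + 8 * (r + 2) ^ 2 + 4 * (r + 2) + F.leadingCoeff.natAbs + 20, fun k hk D hD => ?_⟩
  obtain ⟨⟨hl1, hl2, hkN⟩, -⟩ := hen k (by omega)
  obtain ⟨N, hN⟩ : ∃ N, N = b ^ ((r + 2) * k) := ⟨_, rfl⟩
  rw [← hN] at hl1 hl2 hkN ⊢
  have hk20 : (20 : ℝ) ≤ k := by exact_mod_cast (by omega : 20 ≤ k)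
  have hk0 : (0 : ℝ) < k := by linarith
  have hk1 : (1 : ℝ) ≤ k := by linarith
  have hN0' : 0 < N := by rw [hN]; positivity
  have hNr : (0 : ℝ) < N := by exact_mod_cast hN0'
  obtain ⟨x, hx⟩ : ∃ x, x = (B + 1) * N := ⟨_, rfl⟩
  have hxN : N ≤ x := by rw [hx]; exact Nat.le_mul_of_pos_left _ (by omega)
  obtain ⟨L, hL⟩ : ∃ L, L = Real.log (x : ℝ) := ⟨_, rfl⟩
  have hkL : (k : ℝ) ≤ L := by
    rw [hL]
    exact hl1.trans (Real.log_le_log hNr (by exact_mod_cast hxN))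
  have hLk : L ≤ 2 * (k : ℝ) ^ 2 := by
    rw [hL, hx]
    push_cast
    rw [Real.log_mul (by positivity) hNr.ne']
    have h6 : Real.log ((B : ℝ) + 1) ≤ B := by
      have := Real.log_le_sub_one_of_pos (by positivity : (0 : ℝ) < (B : ℝ) + 1)
      linarith
    have h7 : (B : ℝ) ≤ k := by exact_mod_cast (by omega : B ≤ k)
    nlinarith
  have hL0 : 0 < L := by linarith
  have hL1 : 1 ≤ L := by linarith
  obtain ⟨z1, hz1⟩ : ∃ z1, z1 = ⌊L ^ E⌋₊ := ⟨_, rfl⟩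
  have hz1le : (z1 : ℝ) ≤ L ^ E := by rw [hz1]; exact Nat.floor_le (by positivity)
  have hz1ge : L ^ E < z1 + 1 := by rw [hz1]; exact Nat.lt_floor_add_one _
  have hkE : k ^ E ≤ z1 := by
    rw [hz1]
    apply Nat.le_floor
    push_cast
    exact pow_le_pow_left₀ hk0.le hkL E
  have hz1k : z1 ≤ k ^ (3 * E) := by
    have h6 : L ^ E ≤ ((k : ℝ) ^ 3) ^ E := by
      apply pow_le_pow_left₀ hL0.le
      nlinarith
    have h7 : (z1 : ℝ) ≤ ((k ^ (3 * E) : ℕ) : ℝ) := by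
      push_cast
      rw [pow_mul]
      exact hz1le.trans h6
    exact_mod_cast h7
  have hkz1 : k ≤ z1 := (Nat.le_self_pow (by omega) k).trans hkE
  obtain ⟨s, hs⟩ : ∃ s : ℝ, s = (S b D k).card := ⟨_, rfl⟩
  have hs0 : 0 ≤ s := by rw [hs]; exact Nat.cast_nonneg _
  rw [← hs]
  obtain ⟨Bt, hBt1, hBt2, hBt3⟩ := h3 x (by
    have : k ≤ N := hkN
    omega)
  rw [← hL] at hBt2 hBt3
  rw [← hz1] at hBt3
  have h6 := h4 k (by omega) D hD z1 ((Nat.pow_le_pow_right (by omega) (by omega)).trans hkE) hz1k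
  rw [← hN, ← hs] at h6
  have hV := h5 N (by omega) z1 (by omega) (by
    have h7 : (z1 : ℝ) ≤ (k : ℝ) ^ (3 * E) := by exact_mod_cast hz1k
    exact h7.trans (pow_le_pow_left₀ hk0.le hl1 _))
  have hV0 : 0 ≤ (Vz z1)⁻¹ := inv_nonneg.2 (Vz_pos z1).le
  obtain ⟨Bc, hBc⟩ : ∃ Bc : Finset ℤ, Bc = (Icc (-((B * N : ℕ) : ℤ)) ((B * N : ℕ) : ℤ)).filter (fun c : ℤ =>
      ∃ y : ℕ, s / (k : ℝ) ^ (U + 1) < |TH b k D F c y - (Vz z1)⁻¹ * (BA b k D F c y * prodz b z1 F c)|) := ⟨_, rfl⟩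
  rw [← hBc] at h6
  have hκA : (0 : ℝ) < L ^ A := by positivity
  have hsub : (Icc (-((B * N : ℕ) : ℤ)) ((B * N : ℕ) : ℤ)).filter (fun c : ℤ =>
      ¬ ∀ y z : ℕ, k ^ (3 * E) ≤ z → z ^ 3 ≤ N → |TH b k D F c y - GG b z F c * BA b k D F c y| ≤ s / (k : ℝ) ^ U) ⊆ Bc ∪ Bt := by
    intro c hc
    rw [mem_filter] at hc
    rw [mem_union]
    by_contra hcon
    push Not at hcon
    obtain ⟨hc2, hc3⟩ := hcon
    apply hc.2
    intro y z hz hz3
    rw [hBc, mem_filter, not_and] at hc2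
    have h7 := hc2 hc.1
    push Not at h7
    have h8 := h7 y
    have hcx : c ∈ Icc (-(x : ℤ)) x := by
      have h9 := mem_Icc.1 hc.1
      have h10 : ((B * N : ℕ) : ℤ) ≤ x := by
        rw [hx]
        exact_mod_cast Nat.mul_le_mul_right N (by omega : B ≤ B + 1)
      rw [mem_Icc]
      exact ⟨by linarith [h9.1], by linarith [h9.2]⟩
    have h9 := hBt3 c hcx hc3 z (hz1k.trans hz) (hz3.trans hxN)
    have hbz1 : b ≤ z1 := by omega
    have e1 : (Vz z1)⁻¹ * (BA b k D F c y * prodz b z1 F c) = GG b z1 F c * BA b k D F c y := by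
      rw [← GG_eq b z1 hbz1]
      ring
    rw [e1] at h8
    have hpc := prod_close F c z1 z (by omega) (by omega) hF0 (hz1k.trans hz) (1 / L ^ A) (by
      rw [hF]
      have h10 : L ^ (A + 1) ≤ L ^ E := pow_le_pow_right₀ hL1 (by omega)
      have h11 : 8 * ((r + 2 : ℕ) : ℝ) ^ 2 + 1 ≤ L := by
        have h12 : ((8 * (r + 2) ^ 2 + 1 : ℕ) : ℝ) ≤ k := by exact_mod_cast (by omega : 8 * (r + 2) ^ 2 + 1 ≤ k)
        push_cast at h12 ⊢
        linarith
      rw [one_div_mul_eq_div, le_div_iff₀ hκA]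
      have h13 : 1 ≤ L ^ A := one_le_pow₀ hL1
      have h14 : L ^ (A + 1) = L ^ A * L := pow_succ _ _
      nlinarith) (by rw [hF]; omega) (by
      have h10 : (2 : ℝ) ≤ L ^ A := by
        have : L ≤ L ^ A := le_self_pow₀ hL1 (by omega)
        linarith
      rw [mul_one_div, div_le_one hκA]
      exact h10) h9
    have hG1 : |GG b z1 F c| ≤ (k : ℝ) ^ 2 := by
      rw [← GG_eq b z1 hbz1, abs_mul, abs_of_nonneg hV0]
      calc (Vz z1)⁻¹ * |prodz b z1 F c| ≤ (k : ℝ) ^ 2 * 1 := mul_le_mul (hV.trans hl2) (prodz_le b z1 F c) (abs_nonneg _) (by positivity)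
        _ = _ := mul_one _
    have hBA : (BA b k D F c y : ℝ) ≤ s := by
      rw [hs]
      unfold BA
      exact_mod_cast card_filter_le _ _
    have hBA0 : (0 : ℝ) ≤ (BA b k D F c y : ℝ) := Nat.cast_nonneg _
    have e2 : TH b k D F c y - GG b z F c * BA b k D F c y = (TH b k D F c y - GG b z1 F c * BA b k D F c y) -
        GG b z1 F c * (∏ p ∈ (Ioc z1 z).filter Nat.Prime, (1 - xp F c p) - 1) * BA b k D F c y := by
      rw [GG_mul b z1 z hbz1 (hz1k.trans hz)]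
      ring
    rw [e2]
    refine (abs_sub _ _).trans ?_
    have h10 : |GG b z1 F c * (∏ p ∈ (Ioc z1 z).filter Nat.Prime, (1 - xp F c p) - 1) * BA b k D F c y| ≤ s / (k : ℝ) ^ (U + 1) := by
      rw [abs_mul, abs_mul, abs_of_nonneg hBA0]
      calc |GG b z1 F c| * |∏ p ∈ (Ioc z1 z).filter Nat.Prime, (1 - xp F c p) - 1| * (BA b k D F c y : ℝ) ≤
            (k : ℝ) ^ 2 * (4 * (1 / L ^ A)) * s := by
            apply mul_le_mul _ hBA hBA0 (by positivity)
            exact mul_le_mul hG1 hpc (abs_nonneg _) (by positivity)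
        _ ≤ (k : ℝ) ^ 2 * (4 * (1 / (k : ℝ) ^ A)) * s := by
            apply mul_le_mul_of_nonneg_right _ hs0
            apply mul_le_mul_of_nonneg_left _ (by positivity)
            apply mul_le_mul_of_nonneg_left _ (by norm_num)
            exact one_div_le_one_div_of_le (by positivity) (pow_le_pow_left₀ hk0.le hkL A)
        _ = s / (k : ℝ) ^ (U + 1) * (4 / k) := by
            have e5 : (k : ℝ) ^ A = (k : ℝ) ^ (U + 1) * k * (k : ℝ) ^ 2 := by rw [hA]; ring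
            rw [e5]
            field_simp
        _ ≤ s / (k : ℝ) ^ (U + 1) * 1 := by
            apply mul_le_mul_of_nonneg_left _ (by positivity)
            rw [div_le_one hk0]
            linarith
        _ = _ := mul_one _
    have h11 : s / (k : ℝ) ^ (U + 1) + s / (k : ℝ) ^ (U + 1) ≤ s / (k : ℝ) ^ U := by
      have e3 : s / (k : ℝ) ^ (U + 1) + s / (k : ℝ) ^ (U + 1) = s / (k : ℝ) ^ U * (2 / k) := by
        rw [pow_succ]
        field_simp
        ring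
      rw [e3]
      calc s / (k : ℝ) ^ U * (2 / k) ≤ s / (k : ℝ) ^ U * 1 := by
            apply mul_le_mul_of_nonneg_left _ (by positivity)
            rw [div_le_one hk0]
            linarith
        _ = _ := mul_one _
    linarith
  have h7 : (((Icc (-((B * N : ℕ) : ℤ)) ((B * N : ℕ) : ℤ)).filter (fun c : ℤ =>
      ¬ ∀ y z : ℕ, k ^ (3 * E) ≤ z → z ^ 3 ≤ N → |TH b k D F c y - GG b z F c * BA b k D F c y| ≤ s / (k : ℝ) ^ U)).card : ℝ) ≤
      Bc.card + Bt.card := by exact_mod_cast (card_le_card hsub).trans (card_union_le _ _)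
  refine h7.trans ((add_le_add h6 hBt2).trans ?_)
  have h8 : (x : ℝ) / L ^ (U + 2) ≤ N / (k : ℝ) ^ U * ((B + 1) / k ^ 2) := by
    rw [hx]
    push_cast
    calc ((B : ℝ) + 1) * N / L ^ (U + 2) ≤ ((B : ℝ) + 1) * N / (k : ℝ) ^ (U + 2) :=
          div_le_div_of_nonneg_left (by positivity) (by positivity) (pow_le_pow_left₀ hk0.le hkL _)
      _ = _ := by rw [pow_add]; field_simp
  have h9 : (N : ℝ) / (k : ℝ) ^ (U + 1) = N / (k : ℝ) ^ U * (1 / k) := by rw [pow_succ]; field_simp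
  rw [h9]
  have h10 : (1 : ℝ) / k + (B + 1) / k ^ 2 ≤ 1 := by
    have h12 : (B : ℝ) + 1 ≤ k := by exact_mod_cast (by omega : B + 1 ≤ k)
    have h13 : (1 : ℝ) / k ≤ 1 / 2 := one_div_le_one_div_of_le (by norm_num) (by linarith)
    have h14 : ((B : ℝ) + 1) / k ^ 2 ≤ 1 / 2 := by
      rw [div_le_div_iff₀ (by positivity) (by norm_num)]
      nlinarith
    linarith
  calc (N : ℝ) / (k : ℝ) ^ U * (1 / k) + x / L ^ (U + 2) ≤ N / (k : ℝ) ^ U * (1 / k) + N / (k : ℝ) ^ U * ((B + 1) / k ^ 2) := by linarith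
    _ = N / (k : ℝ) ^ U * (1 / k + (B + 1) / k ^ 2) := by ring
    _ ≤ N / (k : ℝ) ^ U * 1 := mul_le_mul_of_nonneg_left h10 (by positivity)
    _ = _ := mul_one _

end Pool.Agent.U108.PV
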