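import Pool.Agent.U108.PV.J

set_option autoImplicit false

/-! Lower bounds. -/

namespace Pool.Agent.U108.PV
open Finset
open Pool.Agent.TH872.GQ (S)
open Pool.Agent.H373R2.T7 (lamz Vz pz mem_pz Vz_inv_small Vz_pos nuB nuB_le)
open Pool.Agent.TH204.WR (rho xp xp_le tail_all rho_le_deg')
open Pool.Agent.R460.SQ (thp)
open Polynomial (X)
open scoped Polynomial

/-- the number of the `n < y` with restricted digits for which `|F(n) + c|` is prime -/
def PR (b k : ℕ) (D : ℕ → Finset ℕ) (F : ℤ[X]) (c : ℤ) (y : ℕ) : ℕ :=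
  ((S b D k).filter (fun n : ℕ => n < y ∧ (F.eval (n : ℤ) + c).natAbs.Prime)).card

lemma factor_ge (d p : ℕ) (hd : 1 ≤ d) (hp : 2 * d ≤ p) (ρ : ℝ) (hρ : ρ ≤ d) : (1 - 1 / (p : ℝ)) ^ (2 * d) ≤ 1 - ρ / p := by
  have hp0 : (0 : ℝ) < p := by exact_mod_cast (by omega : 0 < p)
  have hdr : (1 : ℝ) ≤ d := by exact_mod_cast hd
  have hpr : 2 * (d : ℝ) ≤ p := by exact_mod_cast hp
  obtain ⟨x, hx⟩ : ∃ x : ℝ, x = 1 / p := ⟨_, rfl⟩
  have hx0 : 0 < x := by rw [hx]; positivity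
  have hdx : 2 * (d : ℝ) * x ≤ 1 := by
    rw [hx, mul_one_div, div_le_one hp0]
    exact hpr
  have hx1 : x ≤ 1 := by nlinarith
  have h1 : 1 - x ≤ 1 / (1 + x) := by
    rw [le_div_iff₀ (by linarith)]
    nlinarith
  have h2 : (1 - x) ^ (2 * d) ≤ 1 / (1 + x) ^ (2 * d) := by
    calc (1 - x) ^ (2 * d) ≤ (1 / (1 + x)) ^ (2 * d) := pow_le_pow_left₀ (by linarith) h1 _
      _ = _ := by rw [one_div_pow]
  have h3 : 1 + ((2 * d : ℕ) : ℝ) * x ≤ (1 + x) ^ (2 * d) := one_add_mul_le_pow (by linarith) _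
  have h4 : (1 : ℝ) / (1 + x) ^ (2 * d) ≤ 1 / (1 + 2 * d * x) := by
    push_cast at h3
    exact one_div_le_one_div_of_le (by positivity) h3
  have h5 : (1 : ℝ) / (1 + 2 * d * x) ≤ 1 - d * x := by
    rw [div_le_iff₀ (by positivity)]
    have h6 : 0 ≤ (d : ℝ) * x := by positivity
    nlinarith
  have h7 : ρ / p ≤ d * x := by
    rw [hx, mul_one_div]
    exact div_le_div_of_nonneg_right hρ hp0.le
  rw [← hx]
  linarith

lemma prodz_ge (b z : ℕ) (F : ℤ[X]) (hd : 1 ≤ F.natDegree) (c : ℤ)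
    (hr : ∀ p : ℕ, p.Prime → b < p → rho F c p < p) :
    1 / ((2 * F.natDegree + F.leadingCoeff.natAbs : ℕ) : ℝ) ^ (2 * F.natDegree + F.leadingCoeff.natAbs) * (Vz z) ^ (2 * F.natDegree) ≤
      prodz b z F c := by
  obtain ⟨d, hdd⟩ : ∃ d, d = F.natDegree := ⟨_, rfl⟩
  obtain ⟨R, hR⟩ : ∃ R, R = 2 * F.natDegree + F.leadingCoeff.natAbs := ⟨_, rfl⟩
  have hF0 : F.leadingCoeff ≠ 0 := by
    rw [Ne, Polynomial.leadingCoeff_eq_zero]
    rintro rfl
    simp at hd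
  rw [← hR, ← hdd]
  rw [← hdd] at hd
  have hR1 : 1 ≤ R := by omega
  have hRr : (1 : ℝ) ≤ R := by exact_mod_cast hR1
  have hfac : ∀ p ∈ (pz z).filter (fun p => b < p),
      (if p ≤ R then 1 / (R : ℝ) else 1) * (1 - 1 / (p : ℝ)) ^ (2 * d) ≤ 1 - (rho F c p : ℝ) / p := by
    intro p hp
    rw [mem_filter, mem_pz] at hp
    have hp0 : (0 : ℝ) < p := by exact_mod_cast hp.1.2.pos
    have hp1 : (1 : ℝ) ≤ p := by exact_mod_cast hp.1.2.one_le
    have hx0 : 0 ≤ 1 - 1 / (p : ℝ) := by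
      rw [sub_nonneg, div_le_one hp0]
      exact hp1
    have hx1 : 1 - 1 / (p : ℝ) ≤ 1 := by
      have : 0 ≤ 1 / (p : ℝ) := by positivity
      linarith
    split_ifs with h
    · have h1 : (rho F c p : ℝ) + 1 ≤ p := by exact_mod_cast hr p hp.1.2 hp.2
      have h2 : (1 - 1 / (p : ℝ)) ^ (2 * d) ≤ 1 := pow_le_one₀ hx0 hx1
      have h3 : 1 / (R : ℝ) ≤ 1 / p := one_div_le_one_div_of_le hp0 (by exact_mod_cast h)
      have h4 : 1 / (p : ℝ) ≤ 1 - (rho F c p : ℝ) / p := by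
        rw [div_le_iff₀ hp0]
        field_simp
        linarith
      calc 1 / (R : ℝ) * (1 - 1 / (p : ℝ)) ^ (2 * d) ≤ 1 / (R : ℝ) * 1 := mul_le_mul_of_nonneg_left h2 (by positivity)
        _ ≤ _ := by rw [mul_one]; exact h3.trans h4
    · rw [one_mul]
      apply factor_ge d p hd (by omega)
      have := rho_le_deg' F c p hp.1.2 (by omega) (by omega) hF0
      rw [← hdd] at this
      exact_mod_cast this
  have hnn : ∀ p ∈ (pz z).filter (fun p => b < p), 0 ≤ (if p ≤ R then 1 / (R : ℝ) else 1) * (1 - 1 / (p : ℝ)) ^ (2 * d) := by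
    intro p hp
    rw [mem_filter, mem_pz] at hp
    have hp0 : (0 : ℝ) < p := by exact_mod_cast hp.1.2.pos
    have hp1 : (1 : ℝ) ≤ p := by exact_mod_cast hp.1.2.one_le
    have hx0 : 0 ≤ 1 - 1 / (p : ℝ) := by
      rw [sub_nonneg, div_le_one hp0]
      exact hp1
    split_ifs <;> positivity
  unfold prodz
  refine le_trans ?_ (prod_le_prod hnn hfac)
  rw [prod_mul_distrib]
  have h1 : 1 / (R : ℝ) ^ R ≤ ∏ p ∈ (pz z).filter (fun p => b < p), (if p ≤ R then 1 / (R : ℝ) else 1) := by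
    rw [← prod_filter, prod_const, one_div_pow]
    apply one_div_le_one_div_of_le (by positivity)
    apply pow_le_pow_right₀ hRr
    have h2 : (((pz z).filter (fun p => b < p)).filter (fun p => p ≤ R)) ⊆ Icc 1 R := by
      intro p hp
      rw [mem_filter, mem_filter, mem_pz] at hp
      rw [mem_Icc]
      exact ⟨hp.1.1.2.one_le, hp.2⟩
    have h3 := card_le_card h2
    rw [Nat.card_Icc] at h3
    omega
  have h2 : (Vz z) ^ (2 * d) ≤ ∏ p ∈ (pz z).filter (fun p => b < p), (1 - 1 / (p : ℝ)) ^ (2 * d) := by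
    rw [prod_pow]
    apply pow_le_pow_left₀ (Vz_pos z).le
    unfold Vz
    have hmem : ∀ p ∈ pz z, 0 ≤ 1 - 1 / (p : ℝ) ∧ 1 - 1 / (p : ℝ) ≤ 1 := by
      intro p hp
      rw [mem_pz] at hp
      have hp0 : (0 : ℝ) < p := by exact_mod_cast hp.2.pos
      have hp1 : (1 : ℝ) ≤ p := by exact_mod_cast hp.2.one_le
      constructor
      · rw [sub_nonneg, div_le_one hp0]
        exact hp1
      · have : 0 ≤ 1 / (p : ℝ) := by positivity
        linarith
    rw [← prod_filter_mul_prod_filter_not (pz z) (fun p => b < p)]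
    have h3 : ∏ p ∈ (pz z).filter (fun p => ¬ b < p), (1 - 1 / (p : ℝ)) ≤ 1 :=
      prod_le_one (fun p hp => (hmem p (mem_filter.1 hp).1).1) (fun p hp => (hmem p (mem_filter.1 hp).1).2)
    have h4 : 0 ≤ ∏ p ∈ (pz z).filter (fun p => b < p), (1 - 1 / (p : ℝ)) :=
      prod_nonneg fun p hp => (hmem p (mem_filter.1 hp).1).1
    calc _ ≤ (∏ p ∈ (pz z).filter (fun p => b < p), (1 - 1 / (p : ℝ))) * 1 := mul_le_mul_of_nonneg_left h3 h4
      _ = _ := mul_one _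
  exact mul_le_mul h1 h2 (pow_nonneg (Vz_pos z).le _) (prod_nonneg fun p _ => by split_ifs <;> positivity)

open Classical in
theorem final_pos (b r B A U : ℕ) (hb : 2 ≤ b) (F : ℤ[X]) (hF : F.natDegree = r + 2) : ∃ E0 k₀ : ℕ, ∀ k : ℕ, k₀ ≤ k →
    ∀ D : ℕ → Finset ℕ, (∀ i < k, D i ⊆ range b ∧ 2 ≤ (D i).card) →
    (((Icc (-((B * b ^ ((r + 2) * k) : ℕ) : ℤ)) ((B * b ^ ((r + 2) * k) : ℕ) : ℤ)).filter (fun c : ℤ =>
      ¬ ((∀ y z : ℕ, k ^ E0 ≤ z → z ^ 3 ≤ b ^ ((r + 2) * k) →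
        |TH b k D F c y - GG b z F c * BA b k D F c y| ≤ (S b D k).card / (k : ℝ) ^ U) ∧
        ((∀ p : ℕ, p.Prime → b < p → rho F c p < p) → ∀ y : ℕ, (S b D k).card / (k : ℝ) ^ A ≤ BA b k D F c y →
          (S b D k).card / (k : ℝ) ^ (A + 4 * (r + 2) + 5) ≤ PR b k D F c y)))).card : ℝ) ≤
      ((b ^ ((r + 2) * k) : ℕ) : ℝ) / (k : ℝ) ^ U := by
  obtain ⟨d, hd⟩ : ∃ d, d = r + 2 := ⟨_, rfl⟩
  obtain ⟨U', hU'⟩ : ∃ U', U' = U + A + 4 * d + 5 := ⟨_, rfl⟩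
  obtain ⟨E1, k₁, h1⟩ := final b r B U' hb F hF
  obtain ⟨h, k₂, hh, hen⟩ := one_energy b r 1 hb
  obtain ⟨BF, hBF⟩ := Pool.Agent.U108.DP.eval_le (mv F) (r + 2) (by rw [← hF]; exact mv_degree F)
  obtain ⟨N1, h5⟩ := Vz_inv_small (E1 + 1)
  obtain ⟨R, hR⟩ : ∃ R, R = 2 * F.natDegree + F.leadingCoeff.natAbs := ⟨_, rfl⟩
  obtain ⟨k₃, hk₃⟩ : ∃ k₃ : ℕ, ∀ k : ℕ, k₃ ≤ k → k ^ (3 * (E1 + 1)) ≤ b ^ ((r + 2) * k) := by
    obtain ⟨u, hu⟩ := Pool.Agent.U108.DP.pow_small' b r (3 * (E1 + 1)) hb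
    exact ⟨u, fun k hk => hu k hk⟩
  refine ⟨E1, k₁ + k₂ + k₃ + N1 + R ^ R + B + BF + b + 100, fun k hk D hD => ?_⟩
  obtain ⟨⟨hl1, hl2, hkN⟩, -⟩ := hen k (by omega)
  obtain ⟨N, hN⟩ : ∃ N, N = b ^ ((r + 2) * k) := ⟨_, rfl⟩
  have h6 := h1 k (by omega) D hD
  have h3E := hk₃ k (by omega)
  rw [← hN] at hl1 hl2 hkN h6 h3E ⊢
  have hk100 : (100 : ℝ) ≤ k := by exact_mod_cast (by omega : 100 ≤ k)
  have hk0 : (0 : ℝ) < k := by linarith
  have hk1 : (1 : ℝ) ≤ k := by linarith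
  have hN0' : 0 < N := by rw [hN]; positivity
  have hNr : (0 : ℝ) < N := by exact_mod_cast hN0'
  obtain ⟨s, hs⟩ : ∃ s : ℝ, s = (S b D k).card := ⟨_, rfl⟩
  have hs0 : 0 ≤ s := by rw [hs]; exact Nat.cast_nonneg _
  rw [← hs] at h6 ⊢
  have hUU : (k : ℝ) ^ U ≤ (k : ℝ) ^ U' := pow_le_pow_right₀ hk1 (by omega)
  have hfin : (N : ℝ) / (k : ℝ) ^ U' ≤ N / (k : ℝ) ^ U := div_le_div_of_nonneg_left hNr.le (by positivity) hUU
  refine le_trans ?_ (h6.trans hfin)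
  apply Nat.cast_le.2
  apply card_le_card
  intro c hc
  rw [mem_filter] at hc ⊢
  refine ⟨hc.1, fun hcon => hc.2 ⟨fun y z hz1 hz2 => (hcon y z hz1 hz2).trans ?_, fun hr y hy => ?_⟩⟩
  · exact div_le_div_of_nonneg_left hs0 (by positivity) hUU
  obtain ⟨z, hz⟩ : ∃ z, z = k ^ (E1 + 1) := ⟨_, rfl⟩
  have hz1 : z ^ 3 ≤ N := by
    rw [hz, ← pow_mul, mul_comm]
    exact h3E
  have hzE : k ^ E1 ≤ z := by rw [hz]; exact Nat.pow_le_pow_right (by omega) (by omega)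
  have hkz : k ≤ z := by rw [hz]; exact Nat.le_self_pow (by omega) k
  have h7 := hcon y z hzE hz1
  have hbz : b ≤ z := by omega
  have hV := h5 N (by omega) z (by omega) (by
    rw [hz]
    push_cast
    exact pow_le_pow_left₀ hk0.le hl1 _)
  have hVp := Vz_pos z
  have hV1 : Vz z ≤ 1 := by
    unfold Vz
    apply prod_le_one
    · intro p hp
      rw [mem_pz] at hp
      have hp0 : (0 : ℝ) < p := by exact_mod_cast hp.2.pos
      have hp1 : (1 : ℝ) ≤ p := by exact_mod_cast hp.2.one_le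
      rw [sub_nonneg, div_le_one hp0]
      exact hp1
    · intro p hp
      have : 0 ≤ 1 / (p : ℝ) := by positivity
      linarith
  -- lower bound for the product
  have hGl : 1 / (k : ℝ) ^ (4 * d + 1) ≤ GG b z F c := by
    have hG := GG_eq b z hbz F c
    have hpz := prodz_ge b z F (by omega) c hr
    rw [← hR] at hpz
    have hVl : 1 / (k : ℝ) ^ 2 ≤ Vz z := by
      have h8 : (Vz z)⁻¹ ≤ (k : ℝ) ^ 2 := hV.trans hl2
      rw [one_div]
      exact inv_le_of_inv_le₀ hVp h8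
    have hRk : (R : ℝ) ^ R ≤ k := by exact_mod_cast (by omega : R ^ R ≤ k)
    have hRp : (0 : ℝ) < (R : ℝ) ^ R := by
      have : 0 < R := by omega
      positivity
    have h8 : 1 / (k : ℝ) ≤ 1 / (R : ℝ) ^ R := one_div_le_one_div_of_le hRp hRk
    have h9 : (1 / (k : ℝ) ^ 2) ^ (2 * F.natDegree) ≤ (Vz z) ^ (2 * F.natDegree) := pow_le_pow_left₀ (by positivity) hVl _
    have h10 : 1 / (k : ℝ) ^ (4 * d + 1) = 1 / (k : ℝ) * (1 / (k : ℝ) ^ 2) ^ (2 * F.natDegree) := by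
      rw [hF, ← hd, one_div_pow, ← pow_mul, one_div_mul_one_div_rev]
      congr 1
      ring
    have h11 : 1 / (k : ℝ) ^ (4 * d + 1) ≤ prodz b z F c := by
      rw [h10]
      exact (mul_le_mul h8 h9 (by positivity) (by positivity)).trans hpz
    have hp0 : 0 ≤ prodz b z F c := le_trans (by positivity) h11
    rw [← hG]
    calc 1 / (k : ℝ) ^ (4 * d + 1) ≤ 1 * prodz b z F c := by rw [one_mul]; exact h11
      _ ≤ (Vz z)⁻¹ * prodz b z F c := by
          apply mul_le_mul_of_nonneg_right _ hp0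
          exact (one_le_inv₀ hVp).2 hV1
  -- the weights
  have hthp : ∀ n ∈ S b D k, thp (F.eval (n : ℤ) + c).natAbs ≤ 2 * (k : ℝ) ^ 2 := by
    intro n hn
    have hn' := (mem_S.1 hn).1
    have h4 := hBF b k (fun _ => n) (by omega) (fun _ => hn')
    rw [mv_eval] at h4
    have h5 : (F.eval (n : ℤ) + c).natAbs ≤ N * N := by
      have h6 : |F.eval (n : ℤ) + c| ≤ (BF + B : ℕ) * (N : ℤ) := by
        refine (abs_add_le _ _).trans ?_
        have h7 : |c| ≤ ((B * N : ℕ) : ℤ) := abs_le.2 (mem_Icc.1 hc.1)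
        rw [hN] at h7 ⊢
        push_cast at h7 h4 ⊢
        linarith
      have h7 : ((F.eval (n : ℤ) + c).natAbs : ℤ) ≤ (BF + B : ℕ) * (N : ℤ) := by
        rw [Int.natCast_natAbs]
        exact h6
      have h8 : (F.eval (n : ℤ) + c).natAbs ≤ (BF + B) * N := by exact_mod_cast h7
      refine h8.trans (Nat.mul_le_mul_right _ ?_)
      omega
    unfold Pool.Agent.R460.SQ.thp
    split_ifs with h6
    · have h7 : Real.log ((F.eval (n : ℤ) + c).natAbs : ℝ) ≤ Real.log ((N : ℝ) * N) :=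
        Real.log_le_log (by exact_mod_cast h6.pos) (by exact_mod_cast h5)
      rw [Real.log_mul hNr.ne' hNr.ne'] at h7
      linarith
    · positivity
  have hTP : TH b k D F c y ≤ (PR b k D F c y : ℝ) * (2 * (k : ℝ) ^ 2) := by
    unfold TH PR
    have e1 : ∑ n ∈ (S b D k).filter (fun n => n < y), thp (F.eval (n : ℤ) + c).natAbs =
        ∑ n ∈ (S b D k).filter (fun n : ℕ => n < y ∧ (F.eval (n : ℤ) + c).natAbs.Prime), thp (F.eval (n : ℤ) + c).natAbs := by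
      rw [← filter_filter, sum_filter (fun n : ℕ => (F.eval (n : ℤ) + c).natAbs.Prime)]
      refine sum_congr rfl fun n _ => ?_
      split_ifs with h8
      · rfl
      · unfold Pool.Agent.R460.SQ.thp
        rw [if_neg h8]
    rw [e1]
    refine (sum_le_card_nsmul _ _ (2 * (k : ℝ) ^ 2) fun n hn => hthp n (mem_filter.1 hn).1).trans ?_
    rw [nsmul_eq_mul]
  -- the end
  have hy' : s / (k : ℝ) ^ A * (1 / (k : ℝ) ^ (4 * d + 1)) ≤ GG b z F c * BA b k D F c y := by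
    rw [mul_comm (GG b z F c)]
    exact mul_le_mul hy hGl (by positivity) (Nat.cast_nonneg _)
  have h8 : s / (k : ℝ) ^ A * (1 / (k : ℝ) ^ (4 * d + 1)) - s / (k : ℝ) ^ U' ≤ TH b k D F c y := by
    have := (abs_le.1 h7).1
    linarith
  have e3 : s / (k : ℝ) ^ A * (1 / (k : ℝ) ^ (4 * d + 1)) = s / (k : ℝ) ^ (A + 4 * d + 1) := by
    rw [div_mul_div_comm, mul_one, ← pow_add]
    congr 2
  have h9 : s / (k : ℝ) ^ U' ≤ s / (k : ℝ) ^ (A + 4 * d + 1) * (1 / 2) := by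
    have h10 : s / (k : ℝ) ^ U' ≤ s / (k : ℝ) ^ (A + 4 * d + 2) :=
      div_le_div_of_nonneg_left hs0 (by positivity) (pow_le_pow_right₀ hk1 (by omega))
    refine h10.trans ?_
    have e4 : s / (k : ℝ) ^ (A + 4 * d + 2) = s / (k : ℝ) ^ (A + 4 * d + 1) * (1 / k) := by
      rw [pow_succ]
      field_simp
    rw [e4]
    apply mul_le_mul_of_nonneg_left _ (by positivity)
    exact one_div_le_one_div_of_le (by norm_num) (by linarith)
  have h10 : s / (k : ℝ) ^ (A + 4 * d + 1) * (1 / 2) ≤ (PR b k D F c y : ℝ) * (2 * (k : ℝ) ^ 2) := by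
    rw [e3] at h8
    linarith
  have h11 : s / (k : ℝ) ^ (A + 4 * d + 5) * (2 * (k : ℝ) ^ 2) ≤ s / (k : ℝ) ^ (A + 4 * d + 1) * (1 / 2) := by
    have e5 : s / (k : ℝ) ^ (A + 4 * d + 5) * (2 * (k : ℝ) ^ 2) = s / (k : ℝ) ^ (A + 4 * d + 1) * (2 / (k : ℝ) ^ 2) := by
      rw [show A + 4 * d + 5 = (A + 4 * d + 1) + 2 + 2 by ring, pow_add _ ((A + 4 * d + 1) + 2) 2, pow_add _ (A + 4 * d + 1) 2]
      field_simp
    rw [e5]
    apply mul_le_mul_of_nonneg_left _ (by positivity)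
    rw [div_le_div_iff₀ (by positivity) (by norm_num)]
    nlinarith
  have h12 := h11.trans h10
  have h13 := le_of_mul_le_mul_right h12 (by positivity : (0 : ℝ) < 2 * (k : ℝ) ^ 2)
  rw [hd] at h13
  exact h13

end Pool.Agent.U108.PV
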